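import Pool.Agent.H.MP_c695c6_lc.helper82.Gate

/-!
Averaging over the labelings.
-/

namespace Pool.Agent.H82.GpMaj

open Finset
open scoped Classical

variable {p : ℕ} [Fact p.Prime] {K : Type} [AddCommGroup K] [Fintype K]
variable {ι : Type} [Fintype ι]

theorem sum_ite_eq_card {s : ℕ} (w : Fin s → ℝ) (G : Fin s → (ι → ι → ι) → Prop)
    (op : X p K → X p K → X p K) :
    ∑ π : ι ≃ X p K, ∑ i, (if G i (tab op π) then w i else 0) =
      ∑ i, w i * ((univ.filter (fun π : ι ≃ X p K => G i (tab op π))).card : ℝ) := by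
  rw [Finset.sum_comm]
  refine Finset.sum_congr rfl fun i _ => ?_
  rw [← Finset.sum_filter, Finset.sum_const, nsmul_eq_mul, mul_comm]

theorem averaging (hcard : Fintype.card ι = Fintype.card (X p K)) {s : ℕ} (w : Fin s → ℤ)
    (θ : ℤ) (G : Fin s → (ι → ι → ι) → Prop) (ε : ℝ)
    (hG : ∀ i, |((univ.filter (fun π : ι ≃ X p K => G i (tab op1 π))).card : ℝ) -
      (univ.filter (fun π : ι ≃ X p K => G i (tab op0 π))).card| ≤
        ε * (Fintype.card ι).factorial)
    (h1 : ∀ π : ι ≃ X p K, θ ≤ ∑ i, if G i (tab op1 π) then w i else 0)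
    (h0 : ∀ π : ι ≃ X p K, (∑ i, if G i (tab op0 π) then w i else 0) < θ) :
    1 ≤ ((∑ i, (w i).natAbs : ℕ) : ℝ) * ε := by
  set N : ℝ := ((Fintype.card ι).factorial : ℝ) with hN
  have hNpos : 0 < N := by rw [hN]; positivity
  have hcardE : (Fintype.card (ι ≃ X p K) : ℝ) = N := by
    obtain ⟨e⟩ := Fintype.card_eq.mp hcard
    rw [Fintype.card_equiv e]
  have a1 : (θ : ℝ) * N ≤
      ∑ i, (w i : ℝ) * ((univ.filter (fun π : ι ≃ X p K => G i (tab op1 π))).card : ℝ) := by
    rw [← sum_ite_eq_card, ← hcardE]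
    have : ∑ _π : ι ≃ X p K, (θ : ℝ) = θ * (Fintype.card (ι ≃ X p K) : ℝ) := by
      rw [Finset.sum_const, nsmul_eq_mul, Finset.card_univ, mul_comm]
    rw [← this]
    refine Finset.sum_le_sum fun π _ => ?_
    have := h1 π
    have h2 : (θ : ℝ) ≤ ((∑ i, if G i (tab op1 π) then w i else 0 : ℤ) : ℝ) := by
      exact_mod_cast this
    refine h2.trans (le_of_eq ?_)
    push_cast
    rfl
  have a0 : ∑ i, (w i : ℝ) * ((univ.filter (fun π : ι ≃ X p K => G i (tab op0 π))).card : ℝ) ≤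
      ((θ : ℝ) - 1) * N := by
    rw [← sum_ite_eq_card, ← hcardE]
    have : ∑ _π : ι ≃ X p K, ((θ : ℝ) - 1) = (θ - 1) * (Fintype.card (ι ≃ X p K) : ℝ) := by
      rw [Finset.sum_const, nsmul_eq_mul, Finset.card_univ, mul_comm]
    rw [← this]
    refine Finset.sum_le_sum fun π _ => ?_
    have := h0 π
    have h2 : ((∑ i, if G i (tab op0 π) then w i else 0 : ℤ) : ℝ) ≤ (θ : ℝ) - 1 := by
      have h3 : (∑ i, if G i (tab op0 π) then w i else 0) ≤ θ - 1 := by omega
      exact_mod_cast h3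
    refine le_trans (le_of_eq ?_) h2
    push_cast
    rfl
  have hdiff : N ≤ ∑ i, (w i : ℝ) *
      (((univ.filter (fun π : ι ≃ X p K => G i (tab op1 π))).card : ℝ) -
        ((univ.filter (fun π : ι ≃ X p K => G i (tab op0 π))).card : ℝ)) := by
    simp only [mul_sub, Finset.sum_sub_distrib]
    linarith
  have hle : ∑ i, (w i : ℝ) *
      (((univ.filter (fun π : ι ≃ X p K => G i (tab op1 π))).card : ℝ) -
        ((univ.filter (fun π : ι ≃ X p K => G i (tab op0 π))).card : ℝ)) ≤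
      ∑ i, ((w i).natAbs : ℝ) * (ε * N) := by
    refine Finset.sum_le_sum fun i _ => ?_
    refine (le_abs_self _).trans ?_
    rw [abs_mul]
    refine mul_le_mul ?_ (hG i) (abs_nonneg _) (by positivity)
    rw [← Int.cast_abs, Int.abs_eq_natAbs]
    simp
  rw [← Finset.sum_mul] at hle
  have hfin : N * 1 ≤ N * (((∑ i, (w i).natAbs : ℕ) : ℝ) * ε) := by
    push_cast
    calc N * 1 = N := mul_one N
      _ ≤ _ := hdiff.trans hle
      _ = _ := by push_cast; ring
  exact le_of_mul_le_mul_left hfin hNpos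

theorem averaging_exact (hcard : Fintype.card ι = Fintype.card (X p K)) {s : ℕ}
    (w : Fin s → ℝ) (θ : ℝ) (G : Fin s → (ι → ι → ι) → Prop)
    (hG : ∀ i, (univ.filter (fun π : ι ≃ X p K => G i (tab op1 π))).card =
      (univ.filter (fun π : ι ≃ X p K => G i (tab op0 π))).card)
    (h1 : ∀ π : ι ≃ X p K, θ ≤ ∑ i, if G i (tab op1 π) then w i else 0)
    (h0 : ∀ π : ι ≃ X p K, (∑ i, if G i (tab op0 π) then w i else 0) < θ) : False := by
  obtain ⟨e⟩ := Fintype.card_eq.mp hcard
  have a1 : ∑ _π : ι ≃ X p K, θ ≤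
      ∑ π : ι ≃ X p K, ∑ i, (if G i (tab op1 π) then w i else 0) :=
    Finset.sum_le_sum fun π _ => h1 π
  have a0 : ∑ π : ι ≃ X p K, ∑ i, (if G i (tab op0 π) then w i else 0) <
      ∑ _π : ι ≃ X p K, θ :=
    Finset.sum_lt_sum_of_nonempty ⟨e, Finset.mem_univ e⟩ fun π _ => h0 π
  rw [sum_ite_eq_card] at a1 a0
  have : ∑ i, w i * ((univ.filter (fun π : ι ≃ X p K => G i (tab op1 π))).card : ℝ) =
      ∑ i, w i * ((univ.filter (fun π : ι ≃ X p K => G i (tab op0 π))).card : ℝ) :=
    Finset.sum_congr rfl fun i _ => by rw [hG i]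
  linarith

/-- events depending on few labels have exactly equal probabilities -/
theorem card_eq_of_few (r0 : ℕ) (hr0 : (4 : ℤ) ^ r0 < p) (E : (ι → ι → ι) → Prop)
    (Q : Finset (ι × ι)) (hQ : 2 * Q.card < r0)
    (hE : ∀ T T' : ι → ι → ι, (∀ q ∈ Q, T q.1 q.2 = T' q.1 q.2) → (E T ↔ E T')) :
    (univ.filter (fun π : ι ≃ X p K => E (tab op1 π))).card =
      (univ.filter (fun π : ι ≃ X p K => E (tab op0 π))).card := by
  set Js : Finset ι := Q.image Prod.fst ∪ Q.image Prod.snd with hJs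
  have hJ : Fintype.card {i // i ∈ Js} = Js.card := Fintype.card_coe Js
  have hJcard : Js.card ≤ 2 * Q.card := by
    have h1 := (Finset.card_image_le (s := Q) (f := Prod.fst))
    have h2 := (Finset.card_image_le (s := Q) (f := Prod.snd))
    have h3 : Js.card ≤ (Q.image Prod.fst).card + (Q.image Prod.snd).card :=
      Finset.card_union_le _ _
    omega
  have h := card_good_eq (K := K) (fun j : {i // i ∈ Js} => (j : ι)) r0 hr0 E (by
    intro T T' hT
    apply hE
    intro q hq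
    exact hT ⟨q.1, Finset.mem_union_left _ (Finset.mem_image_of_mem _ hq)⟩
      ⟨q.2, Finset.mem_union_right _ (Finset.mem_image_of_mem _ hq)⟩)
  have hall : ∀ π : ι ≃ X p K, Good p r0 (apart (fun j : {i // i ∈ Js} => (j : ι)) π) :=
    fun π => good_of_card_lt p r0 (by rw [hJ]; omega) _
  have e1 : ∀ op : X p K → X p K → X p K,
      (univ.filter (fun π : ι ≃ X p K =>
        Good p r0 (apart (fun j : {i // i ∈ Js} => (j : ι)) π) ∧ E (tab op π))) =
      (univ.filter (fun π : ι ≃ X p K => E (tab op π))) := by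
    intro op
    ext π
    simp [hall π]
  rw [e1, e1] at h
  exact h

end Pool.Agent.H82.GpMaj
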