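import Mathlib

/-!
Counting lemmas: solutions of linear equations modulo `p`, bijections with prescribed values.
-/

namespace Pool.Agent.H82.GpMaj

open Matrix Finset

theorem card_solutions {I : Type*} [Fintype I] [DecidableEq I] (p : ℕ) [Fact p.Prime] (r : ℕ)
    (M : Fin r → I → ZMod p) (C : Fin r → I)
    (hdet : (Matrix.of (fun k l => M k (C l))).det ≠ 0) :
    Nat.card {a : I → ZMod p // ∀ k, ∑ i, M k i * a i = 0} * p ^ r = p ^ Fintype.card I := by
  classical
  let f : (I → ZMod p) →+ (Fin r → ZMod p) :=
    { toFun := fun a k => ∑ i, M k i * a i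
      map_zero' := by ext k; simp
      map_add' := by
        intro a b
        ext k
        simp [mul_add, Finset.sum_add_distrib] }
  have hCinj : Function.Injective C := by
    intro i j hij
    by_contra hne
    apply hdet
    refine Matrix.det_zero_of_column_eq hne ?_
    intro k
    simp [hij]
  have hsurj : Function.Surjective f := by
    intro y
    set N : Matrix (Fin r) (Fin r) (ZMod p) := Matrix.of (fun k l => M k (C l)) with hN
    have hu : IsUnit N.det := isUnit_iff_ne_zero.mpr hdet
    let u := N⁻¹.mulVec y
    have hu1 : N.mulVec u = y := by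
      simp only [u, Matrix.mulVec_mulVec]
      rw [Matrix.mul_nonsing_inv _ hu, Matrix.one_mulVec]
    refine ⟨fun i => ∑ l, if C l = i then u l else 0, ?_⟩
    ext k
    change ∑ i, M k i * (∑ l, if C l = i then u l else 0) = y k
    have h := congrFun hu1 k
    simp only [Matrix.mulVec, dotProduct, hN, Matrix.of_apply] at h
    rw [← h]
    calc ∑ i, M k i * (∑ l, if C l = i then u l else 0)
        = ∑ i, ∑ l, (if C l = i then M k i * u l else 0) := by
          refine Finset.sum_congr rfl fun i _ => ?_
          rw [Finset.mul_sum]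
          refine Finset.sum_congr rfl fun l _ => ?_
          split_ifs <;> simp
      _ = ∑ l, ∑ i, (if C l = i then M k i * u l else 0) := Finset.sum_comm
      _ = _ := by
          refine Finset.sum_congr rfl fun l _ => ?_
          rw [Finset.sum_ite_eq]
          simp
  have h1 : Nat.card f.ker * f.ker.index = Nat.card (I → ZMod p) := f.ker.card_mul_index
  have h2 : f.ker.index = p ^ r := by
    rw [AddSubgroup.index_ker, AddMonoidHom.range_eq_top.mpr hsurj]
    simp
  have h3 : Nat.card (I → ZMod p) = p ^ Fintype.card I := by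
    simp
  rw [h2, h3] at h1
  have h4 : Nat.card {a : I → ZMod p // ∀ k, ∑ i, M k i * a i = 0} = Nat.card f.ker := by
    refine Nat.card_congr (Equiv.subtypeEquivRight fun a => ?_)
    rw [AddMonoidHom.mem_ker]
    constructor
    · intro h; ext k; exact h k
    · intro h k; exact congrFun h k
  rw [h4, h1]

/-- Bijections with prescribed values at `J` distinct points. -/
theorem card_equiv_prescribed {α β J : Type*} [Fintype α] [DecidableEq α] [Fintype β]
    [DecidableEq β] [Fintype J] (l : J → α) (hl : Function.Injective l) (v : J → β) :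
    Fintype.card {π : α ≃ β // ∀ j, π (l j) = v j} ≤
      (Fintype.card α - Fintype.card J).factorial := by
  classical
  by_cases hne : Nonempty {π : α ≃ β // ∀ j, π (l j) = v j}
  swap
  · have : IsEmpty {π : α ≃ β // ∀ j, π (l j) = v j} := not_nonempty_iff.mp hne
    simp [Fintype.card_eq_zero]
  obtain ⟨π0, hπ0⟩ := hne
  let q : α → Prop := fun a => ¬ ∃ j, l j = a
  have h1 : Fintype.card {π : α ≃ β // ∀ j, π (l j) = v j} ≤
      Fintype.card {f : Equiv.Perm α // ∀ a, ¬ q a → f a = a} := by
    refine Fintype.card_le_of_injective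
      (fun π => ⟨(π.1.trans π0.symm : α ≃ α), ?_⟩) ?_
    · intro a ha
      simp only [q, not_not] at ha
      obtain ⟨j, rfl⟩ := ha
      change π0.symm (π.1 (l j)) = l j
      rw [π.2 j, ← hπ0 j, Equiv.symm_apply_apply]
    · intro π π' h
      apply Subtype.ext
      have h' := congrArg Subtype.val h
      simp only at h'
      ext a
      have := Equiv.congr_fun h' a
      simpa using this
  have h2 : Fintype.card {f : Equiv.Perm α // ∀ a, ¬ q a → f a = a} =
      Fintype.card (Equiv.Perm (Subtype q)) :=
    Fintype.card_congr (Equiv.Perm.subtypeEquivSubtypePerm q).symm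
  have h3 : Fintype.card (Subtype q) = Fintype.card α - Fintype.card J := by
    have : Fintype.card {a : α // ∃ j, l j = a} = Fintype.card J := by
      refine (Fintype.card_congr ?_).symm
      exact Equiv.ofInjective l hl
    rw [← this]
    exact Fintype.card_subtype_compl (fun a => ∃ j, l j = a)
  rw [h2, Fintype.card_perm, h3] at h1
  exact h1

theorem pow_le_two_mul_descFactorial (n k : ℕ) (h : k * k ≤ n) :
    n ^ k ≤ 2 * n.descFactorial k := by
  rcases Nat.eq_zero_or_pos n with h0 | hn
  · subst h0
    have : k = 0 := by nlinarith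
    subst this; simp
  have key : ∀ k, k ≤ n → (n : ℤ) ^ k * (2 * n - k * k) ≤ 2 * n * (n.descFactorial k : ℤ) := by
    intro k
    induction k with
    | zero => intro _; simp
    | succ k ih =>
      intro hk
      have ih' := ih (by omega)
      rw [Nat.descFactorial_succ]
      push_cast
      rw [Nat.cast_sub (by omega)]
      have h1 : (0 : ℤ) ≤ (n : ℤ) - k := by
        have : (k : ℤ) ≤ n := by exact_mod_cast (by omega : k ≤ n)
        linarith
      have h2 : (n : ℤ) ^ k * (2 * n - k * k) * (n - k) ≤
          2 * n * (n.descFactorial k : ℤ) * (n - k) := mul_le_mul_of_nonneg_right ih' h1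
      have h3 : (n : ℤ) ^ (k + 1) * (2 * n - (k + 1) * (k + 1)) ≤
          (n : ℤ) ^ k * (2 * n - k * k) * (n - k) := by
        have hn0 : (0 : ℤ) ≤ (n : ℤ) ^ k := by positivity
        have : (n : ℤ) * (2 * n - (k + 1) * (k + 1)) ≤ (2 * n - k * k) * (n - k) := by
          nlinarith [mul_nonneg (mul_nonneg (Int.natCast_nonneg k) (Int.natCast_nonneg k))
            (Int.natCast_nonneg k)]
        calc (n : ℤ) ^ (k + 1) * (2 * n - (k + 1) * (k + 1))
            = (n : ℤ) ^ k * (n * (2 * n - (k + 1) * (k + 1))) := by ring
          _ ≤ (n : ℤ) ^ k * ((2 * n - k * k) * (n - k)) := mul_le_mul_of_nonneg_left this hn0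
          _ = _ := by ring
      calc (n : ℤ) ^ (k + 1) * (2 * n - (k + 1) * (k + 1))
          ≤ (n : ℤ) ^ k * (2 * n - k * k) * (n - k) := h3
        _ ≤ 2 * n * (n.descFactorial k : ℤ) * (n - k) := h2
        _ = _ := by ring
  have hkn : k ≤ n := by nlinarith
  have h1 := key k hkn
  have h2 : (n : ℤ) ≤ 2 * n - k * k := by
    have : ((k * k : ℕ) : ℤ) ≤ n := by exact_mod_cast h
    push_cast at this
    linarith
  have h3 : (n : ℤ) ^ k * n ≤ 2 * n * (n.descFactorial k : ℤ) :=
    (mul_le_mul_of_nonneg_left h2 (by positivity)).trans h1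
  have h4 : (n : ℤ) * n ^ k ≤ n * (2 * (n.descFactorial k : ℤ)) := by linarith
  have h5 := le_of_mul_le_mul_left h4 (by exact_mod_cast hn)
  exact_mod_cast h5

theorem pow_mul_factorial_le (n k : ℕ) (h : k * k ≤ n) :
    n ^ k * (n - k).factorial ≤ 2 * n.factorial := by
  have hk : k ≤ n := by nlinarith
  calc n ^ k * (n - k).factorial ≤ 2 * n.descFactorial k * (n - k).factorial :=
        Nat.mul_le_mul_right _ (pow_le_two_mul_descFactorial n k h)
    _ = 2 * ((n - k).factorial * n.descFactorial k) := by ring
    _ = 2 * n.factorial := by rw [Nat.factorial_mul_descFactorial hk]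

end Pool.Agent.H82.GpMaj
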