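import Pool.Agent.H.MP_c695c6_lc.helper82.Minors
import Pool.Agent.H.MP_c695c6_lc.helper82.Count

/-!
Random labelings of `ℤ/p² × K` and of `(ℤ/p)² × K`: an exact coupling of the two tables on few
positions.
-/

namespace Pool.Agent.H82.GpMaj

open Matrix Finset

abbrev X (p : ℕ) (K : Type) := (ZMod p × K) × ZMod p

section defs

variable {p : ℕ} {K : Type}

/-- the carry of the addition of two digits in base `p` -/
def carryZ (a a' : ZMod p) : ℤ := if p ≤ a.val + a'.val then 1 else 0

def op0 [AddCommGroup K] (x y : X p K) : X p K := x + y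

def op1 [AddCommGroup K] (x y : X p K) : X p K :=
  (x.1 + y.1, x.2 + y.2 + (carryZ x.1.1 y.1.1 : ZMod p))

/-- the table of the operation `op` for the labeling `π` -/
def tab {ι Y : Type*} (op : Y → Y → Y) (π : ι ≃ Y) : ι → ι → ι :=
  fun i j => π.symm (op (π i) (π j))

/-- the linear forms `x_j` and `x_j + x_j'` -/
def form {J : Type*} [DecidableEq J] : J ⊕ J × J → J → ℤ
  | .inl j => Pi.single j 1
  | .inr q => Pi.single q.1 1 + Pi.single q.2 1

def valOf {Y J : Type*} (op : Y → Y → Y) (x : J → Y) : J ⊕ J × J → Y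
  | .inl j => x j
  | .inr q => op (x q.1) (x q.2)

/-- no `r0` independent coincidences modulo `p` -/
def Good {J : Type*} [Fintype J] [DecidableEq J] (p r0 : ℕ) (α : J → ZMod p) : Prop :=
  ∀ (R : Fin r0 → (J ⊕ J × J) × (J ⊕ J × J)) (C : Fin r0 → J),
    (∀ k, ∑ i, ((form (R k).1 i - form (R k).2 i : ℤ) : ZMod p) * α i = 0) →
    (p : ℤ) ∣ (Matrix.of (fun k l => form (R k).1 (C l) - form (R k).2 (C l))).det

def Cz {J : Type*} (α : J → ZMod p) : J ⊕ J × J → ℤ
  | .inl _ => 0
  | .inr q => carryZ (α q.1) (α q.2)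

def lin {A J : Type*} [Add A] (x : J → A) : J ⊕ J × J → A
  | .inl j => x j
  | .inr q => x q.1 + x q.2

end defs

section basic

variable {p : ℕ} [Fact p.Prime]

theorem val_add_carry (a a' : ZMod p) :
    (a.val : ℤ) + a'.val = ((a + a').val : ℤ) + p * carryZ a a' := by
  have h1 := ZMod.val_lt a
  have h2 := ZMod.val_lt a'
  unfold carryZ
  rw [ZMod.val_add]
  split_ifs with h
  · have : (a.val + a'.val) % p = a.val + a'.val - p := by
      rw [Nat.mod_eq_sub_mod h, Nat.mod_eq_of_lt (by omega)]
    rw [this]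
    push_cast [Nat.cast_sub h]
    ring
  · rw [Nat.mod_eq_of_lt (by omega)]
    push_cast
    ring

theorem sum_form_mul {J R : Type*} [Fintype J] [DecidableEq J] [CommRing R] (y : J → R)
    (f : J ⊕ J × J) : ∑ i, ((form f i : ℤ) : R) * y i = lin y f := by
  rcases f with j | q
  · simp only [form, lin]
    rw [Finset.sum_eq_single j]
    · simp
    · intro b _ hb; simp [hb]
    · simp
  · simp only [form, lin, Pi.add_apply, Int.cast_add, add_mul, Finset.sum_add_distrib]
    congr 1
    · rw [Finset.sum_eq_single q.1]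
      · simp
      · intro b _ hb; simp [hb]
      · simp
    · rw [Finset.sum_eq_single q.2]
      · simp
      · intro b _ hb; simp [hb]
      · simp

theorem sum_abs_form {J : Type*} [Fintype J] [DecidableEq J] (f : J ⊕ J × J) :
    ∑ i, |form f i| ≤ 2 := by
  have h1 : ∀ j : J, ∑ i, |(Pi.single j (1 : ℤ) : J → ℤ) i| = 1 := by
    intro j
    rw [Finset.sum_eq_single j]
    · simp
    · intro b _ hb; simp [hb]
    · simp
  rcases f with j | q
  · simp only [form]; rw [h1]; norm_num
  · have h2 : ∀ i, |form (Sum.inr q : J ⊕ J × J) i| ≤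
        |(Pi.single q.1 (1 : ℤ) : J → ℤ) i| + |(Pi.single q.2 (1 : ℤ) : J → ℤ) i| := by
      intro i
      simp only [form, Pi.add_apply]
      exact abs_add_le _ _
    refine (Finset.sum_le_sum fun i _ => h2 i).trans ?_
    rw [Finset.sum_add_distrib, h1, h1]; norm_num

theorem sum_abs_sub_form {J : Type*} [Fintype J] [DecidableEq J] (f f' : J ⊕ J × J) :
    ∑ i, |form f i - form f' i| ≤ 4 := by
  have h2 : ∀ i, |form f i - form f' i| ≤ |form f i| + |form f' i| := by
    intro i
    rw [sub_eq_add_neg, ← abs_neg (form f' i)]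
    exact abs_add_le _ _
  refine (Finset.sum_le_sum fun i _ => h2 i).trans ?_
  rw [Finset.sum_add_distrib]
  have := add_le_add (sum_abs_form f) (sum_abs_form f')
  linarith

theorem lin_val {J : Type*} (α : J → ZMod p) (f : J ⊕ J × J) :
    lin (fun j => ((α j).val : ℤ)) f = ((lin α f).val : ℤ) + p * Cz α f := by
  rcases f with j | q
  · simp [lin, Cz]
  · simp only [lin, Cz]
    exact val_add_carry _ _

theorem good_shift {J : Type*} [Fintype J] [DecidableEq J] (r0 : ℕ) (hr0 : (4 : ℤ) ^ r0 < p)
    (α : J → ZMod p) (h : Good p r0 α) :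
    ∃ t : J → ZMod p, ∀ f f', lin α f = lin α f' →
      lin t f - lin t f' = (((Cz α f - Cz α f' : ℤ)) : ZMod p) := by
  classical
  let F := {q : (J ⊕ J × J) × (J ⊕ J × J) // lin α q.1 = lin α q.2}
  have hkey : ∀ (y : J → ZMod p) (f f' : J ⊕ J × J),
      ∑ i, ((form f i - form f' i : ℤ) : ZMod p) * y i = lin y f - lin y f' := by
    intro y f f'
    rw [← sum_form_mul y f, ← sum_form_mul y f', ← Finset.sum_sub_distrib]
    refine Finset.sum_congr rfl fun i _ => ?_
    push_cast; ring
  obtain ⟨t, ht⟩ := exists_shift (F := F) p r0 hr0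
    (fun q i => form q.1.1 i - form q.1.2 i) (fun q => sum_abs_sub_form _ _)
    (fun q => Cz α q.1.1 - Cz α q.1.2) (fun j => ((α j).val : ℤ)) (by
      intro q
      have h1 := sum_form_mul (fun j => ((α j).val : ℤ)) q.1.1
      have h2 := sum_form_mul (fun j => ((α j).val : ℤ)) q.1.2
      have h3 : ∑ i, (form q.1.1 i - form q.1.2 i) * ((α i).val : ℤ) =
          lin (fun j => ((α j).val : ℤ)) q.1.1 - lin (fun j => ((α j).val : ℤ)) q.1.2 := by
        rw [← h1, ← h2, ← Finset.sum_sub_distrib]
        refine Finset.sum_congr rfl fun i _ => ?_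
        simp only [Int.cast_id]; ring
      rw [h3, lin_val, lin_val, q.2]
      ring) (by
      intro R C
      refine h (fun k => (R k).1) C ?_
      intro k
      rw [hkey, (R k).2, sub_self])
  refine ⟨t, fun f f' hff => ?_⟩
  rw [← hkey]
  exact ht ⟨(f, f'), hff⟩

end basic

section couple

variable {p : ℕ} [Fact p.Prime] {K : Type} [AddCommGroup K]

theorem valOf_op1 {J : Type*} (x : J → X p K) (f : J ⊕ J × J) :
    valOf op1 x f = (lin (fun j => (x j).1) f,
      lin (fun j => (x j).2) f + ((Cz (fun j => (x j).1.1) f : ℤ) : ZMod p)) := by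
  rcases f with j | q
  · simp [valOf, lin, Cz]
  · simp [valOf, lin, Cz, op1]

theorem valOf_op0 {J : Type*} (x : J → X p K) (f : J ⊕ J × J) :
    valOf op0 x f = (lin (fun j => (x j).1) f, lin (fun j => (x j).2) f) := by
  rcases f with j | q
  · simp [valOf, lin]
  · simp only [valOf, lin, op0]
    rfl

theorem lin_fst {A B J : Type*} [Add A] [Add B] (y : J → A × B) (f : J ⊕ J × J) :
    (lin y f).1 = lin (fun j => (y j).1) f := by
  rcases f with j | q <;> simp [lin]

theorem lin_add {A J : Type*} [AddCommMonoid A] (y z : J → A) (f : J ⊕ J × J) :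
    lin (fun j => y j + z j) f = lin y f + lin z f := by
  rcases f with j | q
  · simp [lin]
  · simp only [lin]; abel

theorem pattern_eq {J : Type*} (x : J → X p K) (t : J → ZMod p)
    (ht : ∀ f f', lin (fun j => (x j).1.1) f = lin (fun j => (x j).1.1) f' →
      lin t f - lin t f' =
        (((Cz (fun j => (x j).1.1) f - Cz (fun j => (x j).1.1) f' : ℤ)) : ZMod p))
    (f f' : J ⊕ J × J) :
    valOf op1 x f = valOf op1 x f' ↔
      valOf op0 (fun j => ((x j).1, (x j).2 + t j)) f =
        valOf op0 (fun j => ((x j).1, (x j).2 + t j)) f' := by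
  rw [valOf_op1, valOf_op1, valOf_op0, valOf_op0]
  simp only [lin_add, Prod.mk.injEq]
  refine and_congr_right fun h1 => ?_
  have h2 : lin (fun j => (x j).1.1) f = lin (fun j => (x j).1.1) f' := by
    have := congrArg Prod.fst h1
    rw [lin_fst, lin_fst] at this
    exact this
  have h3 := ht f f' h2
  push_cast at h3
  constructor
  · intro h
    linear_combination h + h3
  · intro h
    linear_combination h - h3

end couple

/-- Extend a matching of patterns to a permutation. -/
theorem exists_perm_of_pattern {F Y : Type*} [Fintype F] [Fintype Y] [DecidableEq Y]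
    (v v' : F → Y) (h : ∀ f f', v f = v f' ↔ v' f = v' f') :
    ∃ τ : Y ≃ Y, ∀ f, τ (v f) = v' f := by
  classical
  let s : Finset Y := Finset.univ.image v
  let g : Y → Y := fun y => if hy : ∃ f, v f = y then v' hy.choose else y
  have hg : ∀ f, g (v f) = v' f := by
    intro f
    have hy : ∃ f', v f' = v f := ⟨f, rfl⟩
    simp only [g, dif_pos hy]
    exact (h _ _).mp hy.choose_spec
  have hinj : Set.InjOn g s := by
    intro a ha b hb hab
    simp only [s, Finset.coe_image, Finset.coe_univ, Set.image_univ, Set.mem_range] at ha hb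
    obtain ⟨f, rfl⟩ := ha
    obtain ⟨f', rfl⟩ := hb
    rw [hg, hg] at hab
    exact (h _ _).mpr hab
  obtain ⟨e, he⟩ := Finset.exists_equiv_extend_of_card_eq (α := Y) (β := Y)
    (t := Finset.univ) (by simp) (s := s) (f := g) (Finset.subset_univ _) hinj
  refine ⟨e.trans (Equiv.subtypeUnivEquiv (fun y => Finset.mem_univ y)), fun f => ?_⟩
  have := he (v f) (by simp [s])
  rw [hg] at this
  exact this

end Pool.Agent.H82.GpMaj
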