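import Mathlib

/-!
A large set of pairs contains many pairs with a private coordinate.
-/

namespace Pool.Agent.H82.GpMaj

open Finset

theorem matching {α : Type*} [DecidableEq α] (d : ℕ) : ∀ (k : ℕ) (W : Finset (α × α)),
    (∀ v, (W.filter (fun w => w.1 = v ∨ w.2 = v)).card ≤ d) → 2 * d * k < W.card →
    ∃ P : Fin k → α × α, (∀ r, P r ∈ W) ∧
      ∀ r s, s ≠ r → (P r).1 ≠ (P s).1 ∧ (P r).1 ≠ (P s).2 := by
  intro k
  induction k with
  | zero => intro W _ _; exact ⟨Fin.elim0, fun r => r.elim0, fun r => r.elim0⟩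
  | succ k ih =>
    intro W hd hW
    have hne : W.Nonempty := Finset.card_pos.mp (by omega)
    obtain ⟨w, hw⟩ := hne
    let W' := W.filter fun w' => w'.1 ≠ w.1 ∧ w'.1 ≠ w.2 ∧ w'.2 ≠ w.1 ∧ w'.2 ≠ w.2
    have hsub : W ⊆ W' ∪ (W.filter (fun w' => w'.1 = w.1 ∨ w'.2 = w.1) ∪
        W.filter (fun w' => w'.1 = w.2 ∨ w'.2 = w.2)) := by
      intro w' hw'
      simp only [W', Finset.mem_union, Finset.mem_filter]
      tauto
    have h1 : W.card ≤ W'.card + (d + d) :=
      (Finset.card_le_card hsub).trans ((Finset.card_union_le _ _).trans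
        (Nat.add_le_add_left ((Finset.card_union_le _ _).trans
          (Nat.add_le_add (hd _) (hd _))) _))
    have h2 : 2 * d * (k + 1) = 2 * d * k + 2 * d := by ring
    obtain ⟨P, hP, hP2⟩ := ih W' (by
      intro v
      refine le_trans (Finset.card_le_card ?_) (hd v)
      intro x hx
      simp only [W', Finset.mem_filter] at hx ⊢
      exact ⟨hx.1.1, hx.2⟩) (by omega)
    refine ⟨Fin.cons w P, ?_, ?_⟩
    · intro r
      refine Fin.cases ?_ (fun r => ?_) r
      · simpa using hw
      · simpa using (Finset.mem_filter.mp (hP r)).1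
    · intro r s
      refine Fin.cases ?_ (fun r => ?_) r
      · refine Fin.cases ?_ (fun s => ?_) s
        · intro h; exact absurd rfl h
        · intro _
          have := (Finset.mem_filter.mp (hP s)).2
          simp only [Fin.cons_zero, Fin.cons_succ]
          exact ⟨Ne.symm this.1, Ne.symm this.2.2.1⟩
      · refine Fin.cases ?_ (fun s => ?_) s
        · intro _
          have := (Finset.mem_filter.mp (hP r)).2
          simp only [Fin.cons_zero, Fin.cons_succ]
          exact ⟨this.1, this.2.1⟩
        · intro h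
          simp only [Fin.cons_succ]
          exact hP2 r s (fun h' => h (by rw [h']))

theorem private_positions {α : Type*} [DecidableEq α] (k : ℕ) (W : Finset (α × α))
    (h : 4 * k * k < W.card) :
    ∃ (P : Fin k → α × α) (c : Fin k → α), (∀ r, P r ∈ W) ∧
      (∀ r, c r = (P r).1 ∨ c r = (P r).2) ∧
      ∀ r s, s ≠ r → c r ≠ (P s).1 ∧ c r ≠ (P s).2 := by
  by_cases hstar : ∃ v, 2 * k < (W.filter (fun w => w.1 = v ∨ w.2 = v)).card
  · obtain ⟨v, hv⟩ := hstar
    set N := W.filter (fun w => w.1 = v ∨ w.2 = v) with hN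
    let O := (N.image (fun w => if w.1 = v then w.2 else w.1)).erase v
    have hsub : N ⊆ {(v, v)} ∪ (O.image (fun j => (v, j)) ∪ O.image (fun j => (j, v))) := by
      intro w hw
      have hw2 := (Finset.mem_filter.mp hw).2
      simp only [Finset.mem_union, Finset.mem_singleton, Finset.mem_image]
      by_cases h1 : w.1 = v
      · by_cases h2 : w.2 = v
        · left; exact Prod.ext h1 h2
        · right; left
          refine ⟨w.2, ?_, Prod.ext h1.symm rfl⟩
          rw [Finset.mem_erase, Finset.mem_image]
          exact ⟨h2, w, hw, by rw [if_pos h1]⟩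
      · right; right
        have h2 : w.2 = v := by tauto
        refine ⟨w.1, ?_, Prod.ext rfl h2.symm⟩
        rw [Finset.mem_erase, Finset.mem_image]
        exact ⟨h1, w, hw, by rw [if_neg h1]⟩
    have hcard : N.card ≤ 1 + (O.card + O.card) := by
      refine (Finset.card_le_card hsub).trans ((Finset.card_union_le _ _).trans ?_)
      rw [Finset.card_singleton]
      refine Nat.add_le_add_left ((Finset.card_union_le _ _).trans ?_) _
      exact Nat.add_le_add Finset.card_image_le Finset.card_image_le
    have hk : k ≤ O.card := by omega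
    obtain ⟨T, hT, hTc⟩ := Finset.exists_subset_card_eq hk
    let eq := (Fintype.equivFinOfCardEq (α := T) (by simpa using hTc)).symm
    have hO : ∀ j ∈ O, j ≠ v ∧ ∃ w ∈ N, (w = (v, j) ∨ w = (j, v)) := by
      intro j hj
      rw [Finset.mem_erase, Finset.mem_image] at hj
      obtain ⟨hjv, w, hw, hwj⟩ := hj
      refine ⟨hjv, w, hw, ?_⟩
      have hw2 := (Finset.mem_filter.mp hw).2
      by_cases h1 : w.1 = v
      · rw [if_pos h1] at hwj
        left; exact Prod.ext h1 hwj
      · rw [if_neg h1] at hwj
        right; exact Prod.ext hwj (by tauto)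
    have hsel : ∀ r : Fin k, ∃ w ∈ N, (w = (v, (eq r : α)) ∨ w = ((eq r : α), v)) :=
      fun r => (hO _ (hT (eq r).2)).2
    choose P hP hP2 using hsel
    refine ⟨P, fun r => (eq r : α), fun r => (Finset.mem_filter.mp (hP r)).1, ?_, ?_⟩
    · intro r
      rcases hP2 r with h | h
      · right; rw [h]
      · left; rw [h]
    · intro r s hsr
      have h1 : (eq r : α) ≠ v := (hO _ (hT (eq r).2)).1
      have h2 : (eq r : α) ≠ (eq s : α) := by
        intro h3
        apply hsr
        exact (eq.injective (Subtype.ext h3)).symm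
      rcases hP2 s with h | h
      · rw [h]; exact ⟨h1, h2⟩
      · rw [h]; exact ⟨h2, h1⟩
  · push Not at hstar
    obtain ⟨P, hP, hP2⟩ := matching (2 * k) k W hstar (by
      have : 2 * (2 * k) * k = 4 * k * k := by ring
      omega)
    exact ⟨P, fun r => (P r).1, hP, fun r => Or.inl rfl, hP2⟩

end Pool.Agent.H82.GpMaj
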