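import Pool.Agent.H.MP_c695c6_lc.helper82.Ops
import Pool.Agent.H.MP_c695c6_lc.helper82.Private

/-!
The two basic estimates for the random tables: events depending on few labels, and AND events
that test many positions.
-/

namespace Pool.Agent.H82.GpMaj

open Finset
open scoped Classical

variable {p : ℕ} [Fact p.Prime] {K : Type} [AddCommGroup K] [Fintype K]
variable {ι : Type} [Fintype ι]

/-- ratio bounding the probability of one more coincidence among `D` labels -/
noncomputable def bq (p D : ℕ) : ℝ := ((D : ℝ) + D ^ 2) ^ 2 / p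

theorem bq_nonneg (p D : ℕ) : 0 ≤ bq p D := by unfold bq; positivity

theorem bad_real (Js : Finset ι) (D : ℕ) (hD : Js.card ≤ D) (hD2 : D * D ≤ Fintype.card ι)
    (hcard : Fintype.card ι = Fintype.card (X p K)) (r0 : ℕ) :
    ((univ.filter (fun π : ι ≃ X p K =>
      ¬ Good p r0 (apart (fun j : {i // i ∈ Js} => (j : ι)) π))).card : ℝ) ≤
      2 * bq p D ^ r0 * (Fintype.card ι).factorial := by
  have hp : 0 < p := (Fact.out : p.Prime).pos
  have hJ : Fintype.card {i // i ∈ Js} = Js.card := Fintype.card_coe Js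
  have h := bad_count (K := K) (fun j : {i // i ∈ Js} => (j : ι)) Subtype.val_injective hcard
    (by rw [hJ]; exact (Nat.mul_le_mul hD hD).trans hD2) r0
  set b := (univ.filter (fun π : ι ≃ X p K =>
      ¬ Good p r0 (apart (fun j : {i // i ∈ Js} => (j : ι)) π))).card with hb
  have hF : Fintype.card ({i // i ∈ Js} ⊕ {i // i ∈ Js} × {i // i ∈ Js}) ≤ D + D * D := by
    rw [Fintype.card_sum, Fintype.card_prod, hJ]
    exact add_le_add hD (Nat.mul_le_mul hD hD)
  have h2 : (b : ℝ) * (p : ℝ) ^ r0 ≤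
      ((((D : ℝ) + D ^ 2) ^ 2) ^ r0) * (2 * (Fintype.card ι).factorial) := by
    have h3 : b * p ^ r0 ≤ ((D + D * D) ^ 2) ^ r0 * (2 * (Fintype.card ι).factorial) :=
      h.trans (Nat.mul_le_mul_right _ (Nat.pow_le_pow_left (Nat.pow_le_pow_left hF 2) r0))
    have h4 : ((b * p ^ r0 : ℕ) : ℝ) ≤
        (((D + D * D) ^ 2) ^ r0 * (2 * (Fintype.card ι).factorial) : ℕ) := by exact_mod_cast h3
    push_cast at h4
    rw [show ((D : ℝ) + D * D) = (D : ℝ) + D ^ 2 by ring] at h4
    exact h4
  have hpp : (0 : ℝ) < (p : ℝ) ^ r0 := by positivity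
  unfold bq
  rw [div_pow, mul_div_assoc', div_mul_eq_mul_div, le_div_iff₀ hpp]
  linarith

theorem narrow_real (r0 : ℕ) (hr0 : (4 : ℤ) ^ r0 < p) (E : (ι → ι → ι) → Prop)
    (Js : Finset ι) (D : ℕ) (hD : Js.card ≤ D) (hD2 : D * D ≤ Fintype.card ι)
    (hcard : Fintype.card ι = Fintype.card (X p K))
    (hE : ∀ T T' : ι → ι → ι, (∀ i ∈ Js, ∀ j ∈ Js, T i j = T' i j) → (E T ↔ E T')) :
    |((univ.filter (fun π : ι ≃ X p K => E (tab op1 π))).card : ℝ) -
      (univ.filter (fun π : ι ≃ X p K => E (tab op0 π))).card| ≤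
      2 * bq p D ^ r0 * (Fintype.card ι).factorial := by
  have h := local_diff (K := K) (fun j : {i // i ∈ Js} => (j : ι)) r0 hr0 E (by
    intro T T' hT
    apply hE
    intro i hi j hj
    exact hT ⟨i, hi⟩ ⟨j, hj⟩)
  have hb := bad_real (K := K) Js D hD hD2 hcard r0
  obtain ⟨h1, h2⟩ := h
  have h1' : ((univ.filter (fun π : ι ≃ X p K => E (tab op1 π))).card : ℝ) ≤
    (univ.filter (fun π : ι ≃ X p K => E (tab op0 π))).card +
    (univ.filter (fun π : ι ≃ X p K =>
      ¬ Good p r0 (apart (fun j : {i // i ∈ Js} => (j : ι)) π))).card := by exact_mod_cast h1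
  have h2' : ((univ.filter (fun π : ι ≃ X p K => E (tab op0 π))).card : ℝ) ≤
    (univ.filter (fun π : ι ≃ X p K => E (tab op1 π))).card +
    (univ.filter (fun π : ι ≃ X p K =>
      ¬ Good p r0 (apart (fun j : {i // i ∈ Js} => (j : ι)) π))).card := by exact_mod_cast h2
  rw [abs_le]
  constructor <;> linarith

theorem wide_real (op : X p K → X p K → X p K) (hop : OpOk op) (r0 k : ℕ)
    (hr0 : (4 : ℤ) ^ r0 < p) (e : ι) (S : ι → ι → Finset ι)
    (hS : ∀ i j, S i j ≠ univ → 5 * (S i j).card ≤ 4 * Fintype.card ι)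
    (hcard : Fintype.card ι = Fintype.card (X p K))
    (hk : 10 * (3 * k + 1) ≤ Fintype.card ι) (hk2 : (2 * k + 1) * (2 * k + 1) ≤ Fintype.card ι)
    (hw : 4 * k * k <
      (univ.filter (fun w : ι × ι => S w.1 w.2 ≠ univ ∧ w.1 ≠ e ∧ w.2 ≠ e)).card) :
    ((univ.filter (fun π : ι ≃ X p K => π e = 0 ∧
      ∀ i j, i ≠ e → j ≠ e → tab op π i j ∈ S i j)).card : ℝ) ≤
      ((8 / 9 : ℝ) ^ (k - 2 * r0) + 2 * bq p (2 * k + 1) ^ r0) *
        (Fintype.card ι).factorial := by
  obtain ⟨P, c, hPW, hc, hpriv⟩ := private_positions k _ hw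
  have hPW' : ∀ r, S (P r).1 (P r).2 ≠ univ ∧ (P r).1 ≠ e ∧ (P r).2 ≠ e := by
    intro r
    have := hPW r
    rw [Finset.mem_filter] at this
    exact this.2
  set Js : Finset ι := insert e (univ.image (fun r => (P r).1) ∪ univ.image (fun r => (P r).2))
    with hJs
  have hJcard : Js.card ≤ 2 * k + 1 := by
    refine (Finset.card_insert_le _ _).trans ?_
    have h1 : (univ.image (fun r : Fin k => (P r).1)).card ≤ k :=
      Finset.card_image_le.trans (by simp)
    have h2 : (univ.image (fun r : Fin k => (P r).2)).card ≤ k :=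
      Finset.card_image_le.trans (by simp)
    have h3 := Finset.card_union_le (univ.image (fun r : Fin k => (P r).1))
      (univ.image (fun r : Fin k => (P r).2))
    omega
  have hm1 : ∀ r, (P r).1 ∈ Js := fun r => Finset.mem_insert_of_mem
    (Finset.mem_union_left _ (Finset.mem_image_of_mem _ (Finset.mem_univ r)))
  have hm2 : ∀ r, (P r).2 ∈ Js := fun r => Finset.mem_insert_of_mem
    (Finset.mem_union_right _ (Finset.mem_image_of_mem _ (Finset.mem_univ r)))
  have hme : e ∈ Js := Finset.mem_insert_self _ _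
  have hmc : ∀ r, c r ∈ Js := by
    intro r
    rcases hc r with h | h <;> rw [h]
    · exact hm1 r
    · exact hm2 r
  have hJ : Fintype.card {i // i ∈ Js} = Js.card := Fintype.card_coe Js
  have h := wide_count (K := K) op hop r0 hr0 (fun j : {i // i ∈ Js} => (j : ι))
    Subtype.val_injective (fun r => (⟨(P r).1, hm1 r⟩, ⟨(P r).2, hm2 r⟩))
    (fun r => ⟨c r, hmc r⟩) ⟨e, hme⟩
    (by
      intro r
      rcases hc r with h | h
      · left; exact Subtype.ext h
      · right; exact Subtype.ext h)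
    (by
      intro r s hrs
      have := hpriv r s hrs
      exact ⟨fun h' => this.1 (congrArg Subtype.val h'), fun h' => this.2 (congrArg Subtype.val h')⟩)
    (by
      intro r
      exact ⟨fun h' => (hPW' r).2.1 (congrArg Subtype.val h'),
        fun h' => (hPW' r).2.2 (congrArg Subtype.val h')⟩)
    (fun r => S (P r).1 (P r).2) (fun r => hS _ _ (hPW' r).1) hcard (by rw [hJ]; omega)
  have hb := bad_real (K := K) Js (2 * k + 1) hJcard hk2 hcard r0
  set A := (univ.filter (fun π : ι ≃ X p K => π e = 0 ∧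
    Good p r0 (apart (fun j : {i // i ∈ Js} => (j : ι)) π) ∧
      ∀ r, tab op π (P r).1 (P r).2 ∈ S (P r).1 (P r).2)) with hA
  set B := (univ.filter (fun π : ι ≃ X p K =>
      ¬ Good p r0 (apart (fun j : {i // i ∈ Js} => (j : ι)) π))) with hB
  have hsub : (univ.filter (fun π : ι ≃ X p K => π e = 0 ∧
      ∀ i j, i ≠ e → j ≠ e → tab op π i j ∈ S i j)) ⊆ A ∪ B := by
    intro π hπ
    simp only [Finset.mem_filter, Finset.mem_univ, true_and, Finset.mem_union, hA, hB] at hπ ⊢
    by_cases hg : Good p r0 (apart (fun j : {i // i ∈ Js} => (j : ι)) π)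
    · left
      exact ⟨hπ.1, hg, fun r => hπ.2 _ _ (hPW' r).2.1 (hPW' r).2.2⟩
    · right; exact hg
  have hAle : (A.card : ℝ) ≤ (8 / 9 : ℝ) ^ (k - 2 * r0) * (Fintype.card ι).factorial := by
    have h4 : ((A.card * 9 ^ (k - 2 * r0) : ℕ) : ℝ) ≤
        (8 ^ (k - 2 * r0) * (Fintype.card ι).factorial : ℕ) := by exact_mod_cast h
    push_cast at h4
    rw [div_pow, div_mul_eq_mul_div, le_div_iff₀ (by positivity)]
    exact h4
  have hle : ((univ.filter (fun π : ι ≃ X p K => π e = 0 ∧
      ∀ i j, i ≠ e → j ≠ e → tab op π i j ∈ S i j)).card : ℝ) ≤ A.card + B.card := by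
    exact_mod_cast (Finset.card_le_card hsub).trans (Finset.card_union_le _ _)
  rw [add_mul]
  linarith

end Pool.Agent.H82.GpMaj
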