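import Pool.Agent.H.MP_c695c6_lc.helper82.Frac

/-!
An arbitrary function of few AND events cannot distinguish the two random tables.
-/

namespace Pool.Agent.H82.GpMaj

open Finset
open scoped Classical

variable {p : ℕ} [Fact p.Prime] {K : Type} [AddCommGroup K] [Fintype K]
variable {ι : Type} [Fintype ι]

theorem card_sum_labels (Q : (ι ≃ X p K) → Prop) :
    (univ.filter Q).card = ∑ e : ι, (univ.filter (fun π : ι ≃ X p K => π e = 0 ∧ Q π)).card := by
  rw [Finset.card_eq_sum_card_fiberwise (f := fun π : ι ≃ X p K => π.symm 0) (t := univ)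
    (fun x _ => Finset.mem_coe.mpr (Finset.mem_univ _))]
  refine Finset.sum_congr rfl fun e _ => ?_
  congr 1
  ext π
  simp only [Finset.mem_filter, Finset.mem_univ, true_and]
  rw [Equiv.symm_apply_eq]
  constructor
  · rintro ⟨h1, h2⟩; exact ⟨h2.symm, h1⟩
  · rintro ⟨h1, h2⟩; exact ⟨h2, h1.symm⟩

section gate

variable {M : ℕ} (S : Fin M → ι → ι → Finset ι)

/-- the tested positions of the `m`-th AND avoiding the label `e` -/
noncomputable def tested (e : ι) (m : Fin M) : Finset (ι × ι) :=
  univ.filter (fun w => S m w.1 w.2 ≠ univ ∧ w.1 ≠ e ∧ w.2 ≠ e)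

def inner (e : ι) (m : Fin M) (T : ι → ι → ι) : Prop :=
  ∀ i j, i ≠ e → j ≠ e → T i j ∈ S m i j

def outer (e : ι) (m : Fin M) : Prop := (∀ j, j ∈ S m e j) ∧ ∀ i, i ∈ S m i e

theorem all_iff {op : X p K → X p K → X p K} (hneu : Neu op) (e : ι) (m : Fin M)
    (π : ι ≃ X p K) (he : π e = 0) :
    (∀ i j, tab op π i j ∈ S m i j) ↔ outer S e m ∧ inner S e m (tab op π) := by
  constructor
  · intro h
    refine ⟨⟨fun j => ?_, fun i => ?_⟩, fun i j _ _ => h i j⟩
    · have := h e j
      rwa [tab_left π e hneu he] at this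
    · have := h i e
      rwa [tab_right π e hneu he] at this
  · rintro ⟨⟨h1, h2⟩, h3⟩ i j
    by_cases hi : i = e
    · subst hi
      rw [tab_left π i hneu he]
      exact h1 j
    · by_cases hj : j = e
      · subst hj
        rw [tab_right π j hneu he]
        exact h2 i
      · exact h3 i j hi hj

/-- the simplified gate at the label `e`: the wide ANDs are replaced by `False` -/
def simpl (g : (Fin M → Prop) → Prop) (k : ℕ) (e : ι) (T : ι → ι → ι) : Prop :=
  T e e = e ∧ g (fun m => outer S e m ∧ (tested S e m).card ≤ 4 * k * k ∧ inner S e m T)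

/-- the labels on which the simplified gate depends -/
noncomputable def labs (k : ℕ) (e : ι) : Finset ι :=
  insert e ((univ.filter (fun m => (tested S e m).card ≤ 4 * k * k)).biUnion
    (fun m => (tested S e m).image Prod.fst ∪ (tested S e m).image Prod.snd))

theorem labs_card (k : ℕ) (e : ι) : (labs S k e).card ≤ 1 + M * (2 * (4 * k * k)) := by
  unfold labs
  refine (Finset.card_insert_le _ _).trans ?_
  rw [add_comm]
  refine Nat.add_le_add_left ?_ 1
  refine (Finset.card_biUnion_le).trans ?_
  have : ∀ m ∈ univ.filter (fun m => (tested S e m).card ≤ 4 * k * k),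
      ((tested S e m).image Prod.fst ∪ (tested S e m).image Prod.snd).card ≤
        2 * (4 * k * k) := by
    intro m hm
    rw [Finset.mem_filter] at hm
    have h1 := (Finset.card_image_le (s := tested S e m) (f := Prod.fst))
    have h2 := (Finset.card_image_le (s := tested S e m) (f := Prod.snd))
    have h3 := Finset.card_union_le ((tested S e m).image Prod.fst)
      ((tested S e m).image Prod.snd)
    omega
  refine (Finset.sum_le_sum this).trans ?_
  rw [Finset.sum_const, smul_eq_mul]
  refine Nat.mul_le_mul_right _ ?_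
  exact (Finset.card_le_univ _).trans (by simp)

theorem simpl_depends (g : (Fin M → Prop) → Prop) (k : ℕ) (e : ι) (T T' : ι → ι → ι)
    (h : ∀ i ∈ labs S k e, ∀ j ∈ labs S k e, T i j = T' i j) :
    simpl S g k e T ↔ simpl S g k e T' := by
  have he : e ∈ labs S k e := Finset.mem_insert_self _ _
  unfold simpl
  rw [h e he e he]
  have hfun : (fun m => outer S e m ∧ (tested S e m).card ≤ 4 * k * k ∧ inner S e m T) =
      (fun m => outer S e m ∧ (tested S e m).card ≤ 4 * k * k ∧ inner S e m T') := by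
    funext m
    apply propext
    refine and_congr_right fun _ => and_congr_right fun hm => ?_
    have hkey : ∀ i j, S m i j ≠ univ → i ≠ e → j ≠ e → T i j = T' i j := by
      intro i j h1 h2 h3
      have hmem : (i, j) ∈ tested S e m := by
        unfold tested
        rw [Finset.mem_filter]
        exact ⟨Finset.mem_univ _, h1, h2, h3⟩
      apply h
      · unfold labs
        refine Finset.mem_insert_of_mem (Finset.mem_biUnion.mpr ⟨m, ?_, ?_⟩)
        · rw [Finset.mem_filter]; exact ⟨Finset.mem_univ _, hm⟩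
        · exact Finset.mem_union_left _ (Finset.mem_image.mpr ⟨(i, j), hmem, rfl⟩)
      · unfold labs
        refine Finset.mem_insert_of_mem (Finset.mem_biUnion.mpr ⟨m, ?_, ?_⟩)
        · rw [Finset.mem_filter]; exact ⟨Finset.mem_univ _, hm⟩
        · exact Finset.mem_union_right _ (Finset.mem_image.mpr ⟨(i, j), hmem, rfl⟩)
    unfold inner
    constructor
    · intro h1 i j hi hj
      by_cases hu : S m i j = univ
      · rw [hu]; exact Finset.mem_univ _
      · rw [← hkey i j hu hi hj]; exact h1 i j hi hj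
    · intro h1 i j hi hj
      by_cases hu : S m i j = univ
      · rw [hu]; exact Finset.mem_univ _
      · rw [hkey i j hu hi hj]; exact h1 i j hi hj
  rw [hfun]

theorem simpl_near {op : X p K → X p K → X p K} (hneu : Neu op) (hok : OpOk op)
    (g : (Fin M → Prop) → Prop) (k : ℕ) (e : ι) (ω : ℝ)
    (hω : ∀ m, 4 * k * k < (tested S e m).card →
      ((univ.filter (fun π : ι ≃ X p K => π e = 0 ∧ inner S e m (tab op π))).card : ℝ) ≤ ω)
    (hω0 : 0 ≤ ω) :
    |((univ.filter (fun π : ι ≃ X p K => π e = 0 ∧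
        g (fun m => ∀ i j, tab op π i j ∈ S m i j))).card : ℝ) -
      (univ.filter (fun π : ι ≃ X p K => simpl S g k e (tab op π))).card| ≤ M * ω := by
  set A := univ.filter (fun π : ι ≃ X p K => π e = 0 ∧
        g (fun m => ∀ i j, tab op π i j ∈ S m i j)) with hA
  set B := univ.filter (fun π : ι ≃ X p K => simpl S g k e (tab op π)) with hB
  set W := univ.filter (fun m => 4 * k * k < (tested S e m).card) with hW
  set U := W.biUnion (fun m => univ.filter (fun π : ι ≃ X p K =>
    π e = 0 ∧ inner S e m (tab op π))) with hU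
  have hUcard : (U.card : ℝ) ≤ M * ω := by
    have h1 : (U.card : ℝ) ≤ ∑ m ∈ W, ((univ.filter (fun π : ι ≃ X p K =>
      π e = 0 ∧ inner S e m (tab op π))).card : ℝ) := by
      exact_mod_cast (Finset.card_biUnion_le : U.card ≤ _)
    refine h1.trans ?_
    have h2 : ∑ m ∈ W, ((univ.filter (fun π : ι ≃ X p K =>
      π e = 0 ∧ inner S e m (tab op π))).card : ℝ) ≤ ∑ _m ∈ W, ω := by
      refine Finset.sum_le_sum fun m hm => hω m ?_
      rw [hW, Finset.mem_filter] at hm
      exact hm.2
    refine h2.trans ?_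
    rw [Finset.sum_const, nsmul_eq_mul]
    refine mul_le_mul_of_nonneg_right ?_ hω0
    have : W.card ≤ M := (Finset.card_le_univ _).trans (by simp)
    exact_mod_cast this
  have hkey : ∀ π : ι ≃ X p K, π e = 0 → π ∉ U →
      (fun m => ∀ i j, tab op π i j ∈ S m i j) =
      (fun m => outer S e m ∧ (tested S e m).card ≤ 4 * k * k ∧ inner S e m (tab op π)) := by
    intro π he hπ
    funext m
    apply propext
    rw [all_iff S hneu e m π he]
    refine and_congr_right fun _ => ?_
    constructor
    · intro h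
      refine ⟨?_, h⟩
      by_contra hcon
      apply hπ
      rw [hU, Finset.mem_biUnion]
      refine ⟨m, ?_, ?_⟩
      · rw [hW, Finset.mem_filter]; exact ⟨Finset.mem_univ _, by omega⟩
      · rw [Finset.mem_filter]; exact ⟨Finset.mem_univ _, he, h⟩
    · intro h; exact h.2
  have hAB : A ⊆ B ∪ U := by
    intro π hπ
    rw [hA, Finset.mem_filter] at hπ
    obtain ⟨-, he, hg⟩ := hπ
    by_cases hu : π ∈ U
    · exact Finset.mem_union_right _ hu
    · refine Finset.mem_union_left _ ?_
      rw [hB, Finset.mem_filter]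
      refine ⟨Finset.mem_univ _, (tab_self π e hneu hok).mpr he, ?_⟩
      rw [← hkey π he hu]
      exact hg
  have hBA : B ⊆ A ∪ U := by
    intro π hπ
    rw [hB, Finset.mem_filter] at hπ
    obtain ⟨-, he, hg⟩ := hπ
    have he' := (tab_self π e hneu hok).mp he
    by_cases hu : π ∈ U
    · exact Finset.mem_union_right _ hu
    · refine Finset.mem_union_left _ ?_
      rw [hA, Finset.mem_filter]
      refine ⟨Finset.mem_univ _, he', ?_⟩
      rw [hkey π he' hu]
      exact hg
  have h1 : (A.card : ℝ) ≤ B.card + U.card := by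
    exact_mod_cast (Finset.card_le_card hAB).trans (Finset.card_union_le _ _)
  have h2 : (B.card : ℝ) ≤ A.card + U.card := by
    exact_mod_cast (Finset.card_le_card hBA).trans (Finset.card_union_le _ _)
  rw [abs_le]
  constructor <;> linarith

/-- the probability bound of a wide AND -/
noncomputable def omg (p n k r0 : ℕ) : ℝ :=
  ((8 / 9 : ℝ) ^ (k - 2 * r0) + 2 * bq p (2 * k + 1) ^ r0) * (n.factorial : ℝ)

theorem omg_nonneg (p n k r0 : ℕ) : 0 ≤ omg p n k r0 := by
  have hb := bq_nonneg p (2 * k + 1)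
  unfold omg
  positivity

theorem wide_inner {op : X p K → X p K → X p K} (hok : OpOk op) (r0 k : ℕ)
    (hr0 : (4 : ℤ) ^ r0 < p)
    (hS : ∀ m i j, S m i j ≠ univ → 5 * (S m i j).card ≤ 4 * Fintype.card ι)
    (hcard : Fintype.card ι = Fintype.card (X p K))
    (hk : 10 * (3 * k + 1) ≤ Fintype.card ι) (hk2 : (2 * k + 1) * (2 * k + 1) ≤ Fintype.card ι)
    (e : ι) (m : Fin M) (hm : 4 * k * k < (tested S e m).card) :
    ((univ.filter (fun π : ι ≃ X p K => π e = 0 ∧ inner S e m (tab op π))).card : ℝ) ≤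
      omg p (Fintype.card ι) k r0 := by
  have h := wide_real op hok r0 k hr0 e (S m) (hS m) hcard hk hk2 hm
  refine le_trans (le_of_eq ?_) h
  congr 2
  ext π
  simp only [Finset.mem_filter, inner]

theorem gate_label (r0 k D : ℕ) (hr0 : (4 : ℤ) ^ r0 < p)
    (hS : ∀ m i j, S m i j ≠ univ → 5 * (S m i j).card ≤ 4 * Fintype.card ι)
    (hcard : Fintype.card ι = Fintype.card (X p K))
    (hk : 10 * (3 * k + 1) ≤ Fintype.card ι) (hk2 : (2 * k + 1) * (2 * k + 1) ≤ Fintype.card ι)
    (hD : 1 + M * (2 * (4 * k * k)) ≤ D) (hD2 : D * D ≤ Fintype.card ι)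
    (g : (Fin M → Prop) → Prop) (e : ι) :
    |((univ.filter (fun π : ι ≃ X p K => π e = 0 ∧
        g (fun m => ∀ i j, tab op1 π i j ∈ S m i j))).card : ℝ) -
      (univ.filter (fun π : ι ≃ X p K => π e = 0 ∧
        g (fun m => ∀ i j, tab op0 π i j ∈ S m i j))).card| ≤
      M * omg p (Fintype.card ι) k r0 + (2 * bq p D ^ r0 * (Fintype.card ι).factorial +
        M * omg p (Fintype.card ι) k r0) := by
  have h1 := simpl_near (K := K) S neu1 opOk1 g k e (omg p (Fintype.card ι) k r0)
    (wide_inner S opOk1 r0 k hr0 hS hcard hk hk2 e) (omg_nonneg _ _ _ _)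
  have h0 := simpl_near (K := K) S neu0 opOk0 g k e (omg p (Fintype.card ι) k r0)
    (wide_inner S opOk0 r0 k hr0 hS hcard hk hk2 e) (omg_nonneg _ _ _ _)
  have h := narrow_real (K := K) r0 hr0 (simpl S g k e) (labs S k e) D
    ((labs_card S k e).trans hD) hD2 hcard (simpl_depends S g k e)
  rw [abs_sub_comm] at h0
  refine (abs_sub_le _ _ _).trans (add_le_add h1 ?_)
  exact (abs_sub_le _ _ _).trans (add_le_add h h0)

/-- the error of one middle gate -/
noncomputable def epsGate (p n M k r0 D : ℕ) : ℝ :=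
  n * (2 * bq p D ^ r0 +
    2 * (M * ((8 / 9 : ℝ) ^ (k - 2 * r0) + 2 * bq p (2 * k + 1) ^ r0)))

theorem gate_real (r0 k D : ℕ) (hr0 : (4 : ℤ) ^ r0 < p)
    (hS : ∀ m i j, S m i j ≠ univ → 5 * (S m i j).card ≤ 4 * Fintype.card ι)
    (hcard : Fintype.card ι = Fintype.card (X p K))
    (hk : 10 * (3 * k + 1) ≤ Fintype.card ι) (hk2 : (2 * k + 1) * (2 * k + 1) ≤ Fintype.card ι)
    (hD : 1 + M * (2 * (4 * k * k)) ≤ D) (hD2 : D * D ≤ Fintype.card ι)
    (g : (Fin M → Prop) → Prop) :
    |((univ.filter (fun π : ι ≃ X p K =>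
        g (fun m => ∀ i j, tab op1 π i j ∈ S m i j))).card : ℝ) -
      (univ.filter (fun π : ι ≃ X p K =>
        g (fun m => ∀ i j, tab op0 π i j ∈ S m i j))).card| ≤
      epsGate p (Fintype.card ι) M k r0 D * (Fintype.card ι).factorial := by
  have hone := gate_label (K := K) S r0 k D hr0 hS hcard hk hk2 hD hD2 g
  have c1 := card_sum_labels (fun π : ι ≃ X p K =>
    g (fun m => ∀ i j, tab op1 π i j ∈ S m i j))
  have c0 := card_sum_labels (fun π : ι ≃ X p K =>
    g (fun m => ∀ i j, tab op0 π i j ∈ S m i j))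
  rw [c1, c0, Nat.cast_sum, Nat.cast_sum, ← Finset.sum_sub_distrib]
  refine (Finset.abs_sum_le_sum_abs _ _).trans ?_
  refine (Finset.sum_le_sum fun e _ => hone e).trans ?_
  rw [Finset.sum_const, nsmul_eq_mul, Finset.card_univ]
  unfold epsGate omg
  apply le_of_eq
  ring

end gate

end Pool.Agent.H82.GpMaj
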