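import Pool.Agent.H.MP_c695c6_lc.helper82.Ops

/-!
The tables `tab op1 π` and `tab op0 π` are tables of `ℤ/p² × K` and of `(ℤ/p)² × K`; these two
groups are not isomorphic.
-/

namespace Pool.Agent.H82.GpMaj

open Finset

variable {p : ℕ} [Fact p.Prime] {K : Type} [AddCommGroup K]

/-- two digits in base `p` -/
def enc (x : X p K) : ZMod (p ^ 2) × K :=
  (((x.1.1.val + p * x.2.val : ℕ) : ZMod (p ^ 2)), x.1.2)

theorem enc_injective : Function.Injective (enc : X p K → ZMod (p ^ 2) × K) := by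
  have hp : 0 < p := (Fact.out : p.Prime).pos
  intro x y h
  have h1 : (((x.1.1.val + p * x.2.val : ℕ) : ZMod (p ^ 2))) =
      ((y.1.1.val + p * y.2.val : ℕ) : ZMod (p ^ 2)) := congrArg Prod.fst h
  have h2 : x.1.2 = y.1.2 := congrArg (fun q : ZMod (p ^ 2) × K => q.2) h
  have hlt : ∀ z : X p K, z.1.1.val + p * z.2.val < p ^ 2 := by
    intro z
    have a := ZMod.val_lt z.1.1
    have b := ZMod.val_lt z.2
    have : p * (z.2.val + 1) ≤ p * p := Nat.mul_le_mul_left p b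
    nlinarith
  rw [ZMod.natCast_eq_natCast_iff] at h1
  have h3 : x.1.1.val + p * x.2.val = y.1.1.val + p * y.2.val :=
    Nat.ModEq.eq_of_lt_of_lt h1 (hlt x) (hlt y)
  have h4 : x.1.1.val = y.1.1.val := by
    have := congrArg (· % p) h3
    simpa [Nat.add_mul_mod_self_left, Nat.mod_eq_of_lt (ZMod.val_lt _)] using this
  have h5 : x.2.val = y.2.val := by
    have : p * x.2.val = p * y.2.val := by omega
    exact Nat.eq_of_mul_eq_mul_left hp this
  exact Prod.ext (Prod.ext (ZMod.val_injective p h4) h2) (ZMod.val_injective p h5)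

theorem p_mul_val (z : ZMod p) (m : ℤ) (h : (m : ZMod p) = z) :
    ((p : ZMod (p ^ 2)) * ((z.val : ℕ) : ZMod (p ^ 2))) = (p : ZMod (p ^ 2)) * (m : ZMod (p ^ 2)) := by
  have h1 : ((z.val : ℤ) : ZMod p) = (m : ZMod p) := by
    rw [h]; simp
  rw [ZMod.intCast_eq_intCast_iff] at h1
  have h2 : ((p : ℤ) * (z.val : ℤ)) ≡ (p : ℤ) * m [ZMOD ((p : ℤ) * p)] := Int.ModEq.mul_left' h1
  have h3 : (((p : ℤ) * (z.val : ℤ) : ℤ) : ZMod (p ^ 2)) = (((p : ℤ) * m : ℤ) : ZMod (p ^ 2)) := by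
    rw [ZMod.intCast_eq_intCast_iff]
    rw [show ((p ^ 2 : ℕ) : ℤ) = (p : ℤ) * p by push_cast; ring]
    exact h2
  push_cast at h3
  exact h3

theorem enc_op1 (x y : X p K) : enc (op1 x y) = enc x + enc y := by
  unfold enc op1
  refine Prod.ext ?_ rfl
  simp only [Prod.fst_add]
  have h1 := val_add_carry x.1.1 y.1.1
  have h2 := p_mul_val (x.2 + y.2 + (carryZ x.1.1 y.1.1 : ZMod p))
    ((x.2.val : ℤ) + y.2.val + carryZ x.1.1 y.1.1) (by push_cast; simp)
  push_cast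
  rw [h2]
  have h3 : (((x.1.1.val : ℤ) + y.1.1.val : ℤ) : ZMod (p ^ 2)) =
      ((((x.1.1 + y.1.1).val : ℤ) + p * carryZ x.1.1 y.1.1 : ℤ) : ZMod (p ^ 2)) := by
    rw [h1]
  push_cast at h3 ⊢
  linear_combination -h3

theorem exists_table1 [Fintype K] {ι : Type} (π : ι ≃ X p K) :
    ∃ e : ι ≃ ZMod (p ^ 2) × K, ∀ i j, e (tab op1 π i j) = e i + e j := by
  have hp : 0 < p := (Fact.out : p.Prime).pos
  have : NeZero (p ^ 2) := ⟨by positivity⟩
  have hbij : Function.Bijective (enc : X p K → ZMod (p ^ 2) × K) := by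
    rw [Fintype.bijective_iff_injective_and_card]
    refine ⟨enc_injective, ?_⟩
    simp only [Fintype.card_prod, ZMod.card]
    ring
  refine ⟨π.trans (Equiv.ofBijective _ hbij), fun i j => ?_⟩
  simp only [Equiv.trans_apply, Equiv.ofBijective_apply, tab, Equiv.apply_symm_apply]
  exact enc_op1 _ _

theorem exists_table0 {ι : Type} (π : ι ≃ X p K) :
    ∃ e : ι ≃ ZMod p × ZMod p × K, ∀ i j, e (tab op0 π i j) = e i + e j := by
  let f : X p K ≃ ZMod p × ZMod p × K :=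
    { toFun := fun x => (x.1.1, x.2, x.1.2)
      invFun := fun y => ((y.1, y.2.2), y.2.1)
      left_inv := fun x => rfl
      right_inv := fun x => rfl }
  refine ⟨π.trans f, fun i j => ?_⟩
  simp only [Equiv.trans_apply, tab, Equiv.apply_symm_apply]
  rfl

theorem not_iso (c : ℕ) (hc0 : 0 < c) (hc : c < p)
    (f : (ZMod (p ^ 2) × ZMod c) ≃ (ZMod p × ZMod p × ZMod c))
    (hf : ∀ x y, f (x + y) = f x + f y) : False := by
  let g : (ZMod (p ^ 2) × ZMod c) ≃+ (ZMod p × ZMod p × ZMod c) := { f with map_add' := hf }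
  have h1 : ∀ y : ZMod p × ZMod p × ZMod c, (p * c) • y = 0 := by
    rintro ⟨a, b, d⟩
    refine Prod.ext ?_ (Prod.ext ?_ ?_)
    · simp [nsmul_eq_mul]
    · simp [nsmul_eq_mul]
    · simp [nsmul_eq_mul]
  have h2 : (p * c) • ((1, 0) : ZMod (p ^ 2) × ZMod c) = 0 := by
    apply g.injective
    rw [map_nsmul, map_zero, h1]
  have h3 : (p * c) • (1 : ZMod (p ^ 2)) = 0 := congrArg Prod.fst h2
  rw [nsmul_eq_mul, mul_one, ZMod.natCast_eq_zero_iff] at h3
  have h4 := Nat.le_of_dvd (Nat.mul_pos (Fact.out : p.Prime).pos hc0) h3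
  have h5 : p * c < p * p := Nat.mul_lt_mul_of_pos_left hc (Fact.out : p.Prime).pos
  rw [pow_two] at h4
  omega

end Pool.Agent.H82.GpMaj
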