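import Mathlib

/-!
The values allowed by literals on the bits of one entry: all, or at most `4/5` of them, for
suitable `n`; and the choice of `n`.
-/

namespace Pool.Agent.H82.GpMaj

open Finset

theorem two_mul_half (κ b : ℕ) (hb : b < κ) (c : Bool) :
    2 * ((range (2 ^ κ)).filter (fun v => v.testBit b = c)).card ≤ 2 ^ κ := by
  have h1 : ((range (2 ^ κ)).filter (fun v => v.testBit b = c)).card ≤
      ((range (2 ^ κ)).filter (fun v => ¬ v.testBit b = c)).card := by
    refine Finset.card_le_card_of_injOn (fun v => v ^^^ 2 ^ b) ?_ ?_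
    · intro v hv
      simp only [Finset.coe_filter, Finset.mem_range, Set.mem_ofPred_eq] at hv ⊢
      refine ⟨Nat.xor_lt_two_pow hv.1 (Nat.pow_lt_pow_right (by norm_num) hb), ?_⟩
      rw [Nat.testBit_xor, Nat.testBit_two_pow_self, hv.2]
      cases c <;> simp
    · intro v _ v' _ h
      have h' : (v ^^^ 2 ^ b) ^^^ 2 ^ b = (v' ^^^ 2 ^ b) ^^^ 2 ^ b := congrArg (· ^^^ 2 ^ b) h
      simpa [Nat.xor_assoc] using h'
  have h2 := Finset.card_filter_add_card_filter_not (s := range (2 ^ κ))
    (fun v => v.testBit b = c)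
  rw [Finset.card_range] at h2
  omega

theorem card_fin_filter (n : ℕ) (P : ℕ → Prop) [DecidablePred P] :
    (univ.filter (fun v : Fin n => P v)).card = ((range n).filter P).card := by
  refine Finset.card_bij (fun v _ => (v : ℕ)) ?_ ?_ ?_
  · intro v hv
    rw [Finset.mem_filter] at hv ⊢
    exact ⟨Finset.mem_range.mpr v.2, hv.2⟩
  · intro a _ b _ h
    exact Fin.ext h
  · intro v hv
    rw [Finset.mem_filter, Finset.mem_range] at hv
    exact ⟨⟨v, hv.1⟩, by rw [Finset.mem_filter]; exact ⟨Finset.mem_univ _, hv.2⟩, rfl⟩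

theorem lit_frac (n κ : ℕ) (h1 : 5 * 2 ^ κ ≤ 4 * n) (h2 : n < 2 ^ (κ + 1)) (b : ℕ) (c : Bool) :
    (univ.filter (fun v : Fin n => Nat.testBit v b = c)) = univ ∨
      5 * (univ.filter (fun v : Fin n => Nat.testBit v b = c)).card ≤ 4 * n := by
  have hκ : 0 < 2 ^ κ := by positivity
  have hn : 2 ^ κ ≤ n := by omega
  have hsplit : ((range n).filter (fun v => v.testBit b = c)).card ≤
      ((range (2 ^ κ)).filter (fun v => v.testBit b = c)).card +
      ((Finset.Ico (2 ^ κ) n).filter (fun v => v.testBit b = c)).card := by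
    rw [← Finset.card_union_of_disjoint]
    · apply Finset.card_le_card
      intro v hv
      simp only [Finset.mem_filter, Finset.mem_range, Finset.mem_union, Finset.mem_Ico] at hv ⊢
      by_cases h : v < 2 ^ κ
      · left; exact ⟨h, hv.2⟩
      · right; exact ⟨⟨by omega, hv.1⟩, hv.2⟩
    · rw [Finset.disjoint_left]
      intro v hv hv'
      simp only [Finset.mem_filter, Finset.mem_range, Finset.mem_Ico] at hv hv'
      omega
  have hIco : ((Finset.Ico (2 ^ κ) n).filter (fun v => v.testBit b = c)).card ≤ n - 2 ^ κ :=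
    (Finset.card_filter_le _ _).trans (by simp)
  rcases lt_trichotomy b κ with hb | hb | hb
  · right
    rw [card_fin_filter n (fun v => v.testBit b = c)]
    have h3 := two_mul_half κ b hb c
    rw [pow_succ] at h2
    omega
  · subst hb
    right
    rw [card_fin_filter n (fun v => v.testBit b = c)]
    cases c with
    | false =>
      have h3 : ((Finset.Ico (2 ^ b) n).filter (fun v => v.testBit b = false)).card = 0 := by
        rw [Finset.card_eq_zero, Finset.filter_eq_empty_iff]
        intro v hv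
        rw [Finset.mem_Ico] at hv
        have : v.testBit b = true := Nat.testBit_of_two_pow_le_and_two_pow_add_one_gt hv.1
          (by omega)
        simp [this]
      have h4 : ((range (2 ^ b)).filter (fun v => v.testBit b = false)).card ≤ 2 ^ b :=
        (Finset.card_filter_le _ _).trans (by simp)
      omega
    | true =>
      have h3 : ((range (2 ^ b)).filter (fun v => v.testBit b = true)).card = 0 := by
        rw [Finset.card_eq_zero, Finset.filter_eq_empty_iff]
        intro v hv
        rw [Finset.mem_range] at hv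
        rw [Nat.testBit_lt_two_pow hv]
        simp
      rw [pow_succ] at h2
      omega
  · have hfalse : ∀ v : Fin n, Nat.testBit v b = false := fun v =>
      Nat.testBit_lt_two_pow (v.2.trans (h2.trans_le (Nat.pow_le_pow_right (by norm_num) hb)))
    cases c with
    | false =>
      left
      rw [Finset.filter_eq_self]
      intro v _
      exact hfalse v
    | true =>
      right
      have : (univ.filter (fun v : Fin n => Nat.testBit v b = true)) = ∅ := by
        rw [Finset.filter_eq_empty_iff]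
        intro v _
        simp [hfalse v]
      rw [this]
      simp

open scoped Classical in
theorem cut_frac (n κ : ℕ) (h1 : 5 * 2 ^ κ ≤ 4 * n) (h2 : n < 2 ^ (κ + 1))
    (C : Set (ℕ × Bool))
    (hne : (univ.filter (fun v : Fin n => ∀ q ∈ C, Nat.testBit v q.1 = q.2)) ≠ univ) :
    5 * (univ.filter (fun v : Fin n => ∀ q ∈ C, Nat.testBit v q.1 = q.2)).card ≤ 4 * n := by
  have : ∃ q ∈ C, (univ.filter (fun v : Fin n => Nat.testBit v q.1 = q.2)) ≠ univ := by
    by_contra hcon
    apply hne
    rw [Finset.filter_eq_self]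
    intro v _ q hq
    have h : (univ.filter (fun v : Fin n => Nat.testBit v q.1 = q.2)) = univ := by
      by_contra h'
      exact hcon ⟨q, hq, h'⟩
    have hv : v ∈ (univ.filter (fun v : Fin n => Nat.testBit v q.1 = q.2)) := by
      rw [h]; exact Finset.mem_univ v
    exact (Finset.mem_filter.mp hv).2
  obtain ⟨q, hq, hqne⟩ := this
  have h := (lit_frac n κ h1 h2 q.1 q.2).resolve_left hqne
  refine le_trans (Nat.mul_le_mul_left 5 (Finset.card_le_card ?_)) h
  intro v hv
  rw [Finset.mem_filter] at hv ⊢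
  exact ⟨hv.1, hv.2 q hq⟩

theorem choose_order (N : ℕ) (hN : 1000 ≤ N) :
    ∃ p c κ : ℕ, p.Prime ∧ N ≤ p ^ 2 ∧ p ^ 2 * c ≤ 25 * N ∧ (c = 1 ∨ c = 5) ∧
      5 * 2 ^ κ ≤ 4 * (p ^ 2 * c) ∧ p ^ 2 * c < 2 ^ (κ + 1) := by
  obtain ⟨p, hp, h1, h2⟩ := Nat.exists_prime_lt_and_le_two_mul (Nat.sqrt N + 1) (by omega)
  have hs1 : N < (Nat.sqrt N + 1) * (Nat.sqrt N + 1) := Nat.lt_succ_sqrt N
  have hs2 : Nat.sqrt N * Nat.sqrt N ≤ N := Nat.sqrt_le N
  have hs3 : 31 ≤ Nat.sqrt N := by
    rw [Nat.le_sqrt]; omega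
  have hpN : N ≤ p ^ 2 := by nlinarith
  have hpU : p ^ 2 ≤ 5 * N := by nlinarith
  have hp2 : p ^ 2 ≠ 0 := by omega
  set κ := Nat.log 2 (p ^ 2) with hκ
  have hk1 : 2 ^ κ ≤ p ^ 2 := Nat.pow_log_le_self 2 hp2
  have hk2 : p ^ 2 < 2 ^ (κ + 1) := Nat.lt_pow_succ_log_self (by norm_num) _
  by_cases h : 5 * 2 ^ κ ≤ 4 * p ^ 2
  · exact ⟨p, 1, κ, hp, hpN, by omega, Or.inl rfl, by omega, by omega⟩
  · refine ⟨p, 5, κ + 2, hp, hpN, by omega, Or.inr rfl, ?_, ?_⟩
    · rw [pow_add]; omega
    · rw [show κ + 2 + 1 = κ + 3 by ring, pow_add]; omega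

end Pool.Agent.H82.GpMaj
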