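import Pool.Agent.H.MP_c695c6_lc.helper82.Couple

/-!
Events depending on few positions have nearly the same probability for the two groups.
-/

namespace Pool.Agent.H82.GpMaj

open Matrix Finset
open scoped Classical

variable {p : ℕ} [Fact p.Prime] {K : Type} [AddCommGroup K] [Fintype K]
variable {ι J : Type} [Fintype ι] [Fintype J] [DecidableEq J]

/-- the digits of the elements with labels `ℓ j` -/
def apart (ℓ : J → ι) (π : ι ≃ X p K) : J → ZMod p := fun j => (π (ℓ j)).1.1

/-- the event only depends on the positions in `ℓ(J) × ℓ(J)` -/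
def DependsOn (ℓ : J → ι) (E : (ι → ι → ι) → Prop) : Prop :=
  ∀ T T' : ι → ι → ι, (∀ j j', T (ℓ j) (ℓ j') = T' (ℓ j) (ℓ j')) → (E T ↔ E T')

theorem fiber_card_eq (ℓ : J → ι) (x x' : J → X p K) (E : (ι → ι → ι) → Prop)
    (hE : DependsOn ℓ E)
    (hpat : ∀ f f', valOf op1 x f = valOf op1 x f' ↔ valOf op0 x' f = valOf op0 x' f') :
    (Finset.univ.filter (fun π : ι ≃ X p K => (∀ j, π (ℓ j) = x j) ∧ E (tab op1 π))).card =
    (Finset.univ.filter (fun π : ι ≃ X p K => (∀ j, π (ℓ j) = x' j) ∧ E (tab op0 π))).card := by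
  obtain ⟨τ, hτ⟩ := exists_perm_of_pattern (valOf op1 x) (valOf op0 x') hpat
  have hτl : ∀ j, τ (x j) = x' j := fun j => hτ (.inl j)
  have hτr : ∀ j j', τ (op1 (x j) (x j')) = op0 (x' j) (x' j') := fun j j' => hτ (.inr (j, j'))
  have key : ∀ π : ι ≃ X p K, (∀ j, π (ℓ j) = x j) →
      (E (tab op1 π) ↔ E (tab op0 (π.trans τ))) := by
    intro π hπ
    apply hE
    intro j j'
    simp only [tab, Equiv.trans_apply, Equiv.symm_trans_apply, hπ, hτl]
    rw [← hτr, Equiv.symm_apply_apply]
  refine Finset.card_bij (fun π _ => π.trans τ) ?_ ?_ ?_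
  · intro π hπ
    simp only [Finset.mem_filter, Finset.mem_univ, true_and] at hπ ⊢
    refine ⟨fun j => ?_, (key π hπ.1).mp hπ.2⟩
    simp [hπ.1 j, hτl]
  · intro π _ π' _ h
    ext i : 1
    have := Equiv.congr_fun h i
    simpa using this
  · intro π' hπ'
    simp only [Finset.mem_filter, Finset.mem_univ, true_and] at hπ'
    have h1 : ∀ j, (π'.trans τ.symm) (ℓ j) = x j := by
      intro j
      simp only [Equiv.trans_apply, hπ'.1 j]
      rw [← hτl, Equiv.symm_apply_apply]
    have h2 : (π'.trans τ.symm).trans τ = π' := by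
      ext i : 1; simp
    refine ⟨π'.trans τ.symm, ?_, h2⟩
    simp only [Finset.mem_filter, Finset.mem_univ, true_and]
    refine ⟨h1, (key _ h1).mpr ?_⟩
    rw [h2]; exact hπ'.2

theorem card_fiber_sum (ℓ : J → ι) (Q : (ι ≃ X p K) → Prop) (G : (J → ZMod p) → Prop) :
    (Finset.univ.filter (fun π : ι ≃ X p K => G (apart ℓ π) ∧ Q π)).card =
    ∑ x : J → X p K, if G (fun j => (x j).1.1) then
      (Finset.univ.filter (fun π : ι ≃ X p K => (∀ j, π (ℓ j) = x j) ∧ Q π)).card else 0 := by
  rw [Finset.card_eq_sum_card_fiberwise (f := fun (π : ι ≃ X p K) (j : J) => π (ℓ j))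
    (t := Finset.univ) (fun _ _ => Finset.mem_univ _)]
  refine Finset.sum_congr rfl fun x _ => ?_
  split_ifs with h
  · congr 1
    ext π
    simp only [Finset.mem_filter, Finset.mem_univ, true_and, funext_iff]
    constructor
    · rintro ⟨⟨h1, h2⟩, h3⟩; exact ⟨h3, h2⟩
    · rintro ⟨h1, h2⟩
      refine ⟨⟨?_, h2⟩, h1⟩
      have : apart ℓ π = fun j => (x j).1.1 := by
        funext j; simp [apart, h1]
      rw [this]; exact h
  · rw [Finset.card_eq_zero, Finset.filter_eq_empty_iff]
    intro π hπ h1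
    simp only [Finset.mem_filter, Finset.mem_univ, true_and] at hπ
    apply h
    have : apart ℓ π = fun j => (x j).1.1 := by
      funext j; simp [apart, ← h1]
    rw [← this]; exact hπ.1

theorem card_good_eq (ℓ : J → ι) (r0 : ℕ) (hr0 : (4 : ℤ) ^ r0 < p) (E : (ι → ι → ι) → Prop)
    (hE : DependsOn ℓ E) :
    (Finset.univ.filter (fun π : ι ≃ X p K =>
      Good p r0 (apart ℓ π) ∧ E (tab op1 π))).card =
    (Finset.univ.filter (fun π : ι ≃ X p K =>
      Good p r0 (apart ℓ π) ∧ E (tab op0 π))).card := by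
  let t : (J → ZMod p) → (J → ZMod p) := fun α =>
    if h : Good p r0 α then (good_shift r0 hr0 α h).choose else 0
  let e : (J → X p K) ≃ (J → X p K) :=
    { toFun := fun x j => ((x j).1, (x j).2 + t (fun j => (x j).1.1) j)
      invFun := fun x j => ((x j).1, (x j).2 - t (fun j => (x j).1.1) j)
      left_inv := by intro x; funext j; simp
      right_inv := by intro x; funext j; simp }
  rw [card_fiber_sum ℓ (fun π => E (tab op1 π)) (Good p r0),
    card_fiber_sum ℓ (fun π => E (tab op0 π)) (Good p r0)]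
  rw [← Equiv.sum_comp e (fun x => if Good p r0 (fun j => (x j).1.1) then
      (Finset.univ.filter (fun π : ι ≃ X p K => (∀ j, π (ℓ j) = x j) ∧ E (tab op0 π))).card
        else 0)]
  refine Finset.sum_congr rfl fun x _ => ?_
  have he : (fun j => (e x j).1.1) = fun j => (x j).1.1 := rfl
  simp only [he]
  split_ifs with h
  · refine fiber_card_eq ℓ x (e x) E hE ?_
    have ht : t (fun j => (x j).1.1) = (good_shift r0 hr0 _ h).choose := by
      simp only [t, dif_pos h]
    have hs := (good_shift r0 hr0 _ h).choose_spec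
    rw [← ht] at hs
    exact pattern_eq x _ hs
  · rfl

theorem local_diff (ℓ : J → ι) (r0 : ℕ) (hr0 : (4 : ℤ) ^ r0 < p) (E : (ι → ι → ι) → Prop)
    (hE : DependsOn ℓ E) :
    (Finset.univ.filter (fun π : ι ≃ X p K => E (tab op1 π))).card ≤
      (Finset.univ.filter (fun π : ι ≃ X p K => E (tab op0 π))).card +
      (Finset.univ.filter (fun π : ι ≃ X p K => ¬ Good p r0 (apart ℓ π))).card ∧
    (Finset.univ.filter (fun π : ι ≃ X p K => E (tab op0 π))).card ≤
      (Finset.univ.filter (fun π : ι ≃ X p K => E (tab op1 π))).card +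
      (Finset.univ.filter (fun π : ι ≃ X p K => ¬ Good p r0 (apart ℓ π))).card := by
  have h := card_good_eq (K := K) ℓ r0 hr0 E hE
  have h1 : ∀ op : X p K → X p K → X p K,
      (Finset.univ.filter (fun π : ι ≃ X p K => E (tab op π))).card ≤
      (Finset.univ.filter (fun π : ι ≃ X p K => Good p r0 (apart ℓ π) ∧ E (tab op π))).card +
      (Finset.univ.filter (fun π : ι ≃ X p K => ¬ Good p r0 (apart ℓ π))).card := by
    intro op
    rw [← Finset.card_union_of_disjoint]
    · apply Finset.card_le_card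
      intro π hπ
      simp only [Finset.mem_filter, Finset.mem_univ, true_and, Finset.mem_union] at hπ ⊢
      tauto
    · rw [Finset.disjoint_filter]
      intro π _ h1; tauto
  have h2 : ∀ op : X p K → X p K → X p K,
      (Finset.univ.filter (fun π : ι ≃ X p K => Good p r0 (apart ℓ π) ∧ E (tab op π))).card ≤
      (Finset.univ.filter (fun π : ι ≃ X p K => E (tab op π))).card := by
    intro op
    apply Finset.card_le_card
    intro π hπ
    simp only [Finset.mem_filter, Finset.mem_univ, true_and] at hπ ⊢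
    exact hπ.2
  constructor
  · have a := h1 op1
    have b := h2 op0
    omega
  · have a := h1 op0
    have b := h2 op1
    omega

/-- the relations `R` hold at `α` -/
def RelR (p : ℕ) {r0 : ℕ} (R : Fin r0 → (J ⊕ J × J) × (J ⊕ J × J)) (α : J → ZMod p) : Prop :=
  ∀ k, ∑ i, ((form (R k).1 i - form (R k).2 i : ℤ) : ZMod p) * α i = 0

theorem card_fun_rel (r0 : ℕ) (R : Fin r0 → (J ⊕ J × J) × (J ⊕ J × J)) (C : Fin r0 → J)
    (hC : ¬ (p : ℤ) ∣ (Matrix.of (fun k l => form (R k).1 (C l) - form (R k).2 (C l))).det) :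
    (Finset.univ.filter (fun x : J → X p K => RelR p R (fun j => (x j).1.1))).card * p ^ r0 =
      Fintype.card (X p K) ^ Fintype.card J := by
  have h1 := card_solutions p r0 (fun k i => ((form (R k).1 i - form (R k).2 i : ℤ) : ZMod p)) C
    (by
      intro h
      apply hC
      rw [← ZMod.intCast_zmod_eq_zero_iff_dvd]
      have h2 := (Int.castRingHom (ZMod p)).map_det
        (Matrix.of (fun k l => form (R k).1 (C l) - form (R k).2 (C l)))
      have h3 : (Int.castRingHom (ZMod p)).mapMatrix
          (Matrix.of (fun k l => form (R k).1 (C l) - form (R k).2 (C l))) =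
          Matrix.of (fun k l => ((form (R k).1 (C l) - form (R k).2 (C l) : ℤ) : ZMod p)) := by
        ext k l; simp
      rw [h3, h] at h2
      simpa using h2)
  let e : {x : J → X p K // RelR p R (fun j => (x j).1.1)} ≃
      {α : J → ZMod p // ∀ k, ∑ i, ((form (R k).1 i - form (R k).2 i : ℤ) : ZMod p) * α i = 0} ×
        (J → K × ZMod p) :=
    { toFun := fun x => (⟨fun j => (x.1 j).1.1, x.2⟩, fun j => ((x.1 j).1.2, (x.1 j).2))
      invFun := fun y => ⟨fun j => ((y.1.1 j, (y.2 j).1), (y.2 j).2), y.1.2⟩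
      left_inv := by intro x; rfl
      right_inv := by intro y; rfl }
  have h2 : (Finset.univ.filter (fun x : J → X p K => RelR p R (fun j => (x j).1.1))).card =
      Nat.card {α : J → ZMod p // ∀ k, ∑ i, ((form (R k).1 i - form (R k).2 i : ℤ) : ZMod p) * α i
        = 0} * (Fintype.card K * p) ^ Fintype.card J := by
    rw [← Fintype.card_subtype, ← Nat.card_eq_fintype_card, Nat.card_congr e, Nat.card_prod]
    congr 1
    simp [Nat.card_eq_fintype_card, ZMod.card]
  rw [h2, mul_right_comm, h1, ← mul_pow]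
  congr 1
  simp [ZMod.card]
  ring

theorem card_equiv_rel (ℓ : J → ι) (hℓ : Function.Injective ℓ) (G : (J → ZMod p) → Prop) :
    (Finset.univ.filter (fun π : ι ≃ X p K => G (apart ℓ π))).card ≤
      (Finset.univ.filter (fun x : J → X p K => G (fun j => (x j).1.1))).card *
        (Fintype.card ι - Fintype.card J).factorial := by
  have h := card_fiber_sum (K := K) ℓ (fun _ => True) G
  simp only [and_true] at h
  rw [h, ← Finset.sum_filter, Finset.card_eq_sum_ones, Finset.sum_mul]
  refine Finset.sum_le_sum fun x _ => ?_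
  rw [one_mul, ← Fintype.card_subtype]
  convert card_equiv_prescribed ℓ hℓ x

theorem bad_count (ℓ : J → ι) (hℓ : Function.Injective ℓ)
    (hcard : Fintype.card ι = Fintype.card (X p K))
    (hJ : Fintype.card J * Fintype.card J ≤ Fintype.card ι) (r0 : ℕ) :
    (Finset.univ.filter (fun π : ι ≃ X p K => ¬ Good p r0 (apart ℓ π))).card * p ^ r0 ≤
      (Fintype.card (J ⊕ J × J) ^ 2) ^ r0 * (2 * (Fintype.card ι).factorial) := by
  let SR : Finset (Fin r0 → (J ⊕ J × J) × (J ⊕ J × J)) := Finset.univ.filter fun R =>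
    ∃ C : Fin r0 → J,
      ¬ (p : ℤ) ∣ (Matrix.of (fun k l => form (R k).1 (C l) - form (R k).2 (C l))).det
  have hsub : (Finset.univ.filter (fun π : ι ≃ X p K => ¬ Good p r0 (apart ℓ π))) ⊆
      SR.biUnion (fun R => Finset.univ.filter (fun π : ι ≃ X p K => RelR p R (apart ℓ π))) := by
    intro π hπ
    simp only [Finset.mem_filter, Finset.mem_univ, true_and, Good] at hπ
    push Not at hπ
    obtain ⟨R, C, h1, h2⟩ := hπ
    simp only [Finset.mem_biUnion, Finset.mem_filter, Finset.mem_univ, true_and, SR]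
    exact ⟨R, ⟨C, h2⟩, h1⟩
  have hone : ∀ R ∈ SR, (Finset.univ.filter (fun π : ι ≃ X p K =>
      RelR p R (apart ℓ π))).card * p ^ r0 ≤ 2 * (Fintype.card ι).factorial := by
    intro R hR
    simp only [Finset.mem_filter, Finset.mem_univ, true_and, SR] at hR
    obtain ⟨C, hC⟩ := hR
    have h1 := card_equiv_rel (K := K) ℓ hℓ (RelR p R)
    have h2 := card_fun_rel (K := K) r0 R C hC
    calc (Finset.univ.filter (fun π : ι ≃ X p K => RelR p R (apart ℓ π))).card * p ^ r0
        ≤ (Finset.univ.filter (fun x : J → X p K => RelR p R (fun j => (x j).1.1))).card *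
        (Fintype.card ι - Fintype.card J).factorial * p ^ r0 := Nat.mul_le_mul_right _ h1
      _ = ((Finset.univ.filter (fun x : J → X p K => RelR p R (fun j => (x j).1.1))).card *
          p ^ r0) * (Fintype.card ι - Fintype.card J).factorial := by ring
      _ = Fintype.card ι ^ Fintype.card J * (Fintype.card ι - Fintype.card J).factorial := by
          rw [h2, hcard]
      _ ≤ _ := pow_mul_factorial_le _ _ hJ
  calc (Finset.univ.filter (fun π : ι ≃ X p K => ¬ Good p r0 (apart ℓ π))).card * p ^ r0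
      ≤ (∑ R ∈ SR, (Finset.univ.filter (fun π : ι ≃ X p K => RelR p R (apart ℓ π))).card) *
        p ^ r0 := Nat.mul_le_mul_right _ ((Finset.card_le_card hsub).trans Finset.card_biUnion_le)
    _ = ∑ R ∈ SR, (Finset.univ.filter (fun π : ι ≃ X p K => RelR p R (apart ℓ π))).card *
        p ^ r0 := Finset.sum_mul _ _ _
    _ ≤ ∑ _R ∈ SR, 2 * (Fintype.card ι).factorial := Finset.sum_le_sum hone
    _ = SR.card * (2 * (Fintype.card ι).factorial) := by rw [Finset.sum_const, smul_eq_mul]
    _ ≤ _ := by
        refine Nat.mul_le_mul_right _ ?_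
        refine (Finset.card_le_univ _).trans ?_
        simp [pow_two, Fintype.card_prod]

end Pool.Agent.H82.GpMaj
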