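import Mathlib

/-!
Integer vectors with small entries: if all `r0 × r0` minors of the rows that vanish at `a` modulo `p`
are divisible by `p`, then the carry of these rows is a linear functional modulo `p`.
-/

namespace Pool.Agent.H82.GpMaj

open Matrix Finset

theorem abs_det_le {r : ℕ} (M : Matrix (Fin r) (Fin r) ℤ) (b : ℤ)
    (h : ∀ k, ∑ l, |M k l| ≤ b) : |M.det| ≤ b ^ r := by
  classical
  rw [← Matrix.det_transpose, Matrix.det_apply']
  calc |∑ σ : Equiv.Perm (Fin r), ((Equiv.Perm.sign σ : ℤˣ) : ℤ) * ∏ i, Mᵀ (σ i) i|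
      ≤ ∑ σ : Equiv.Perm (Fin r), |((Equiv.Perm.sign σ : ℤˣ) : ℤ) * ∏ i, Mᵀ (σ i) i| :=
        Finset.abs_sum_le_sum_abs _ _
    _ = ∑ σ : Equiv.Perm (Fin r), ∏ i, |M i (σ i)| := by
        refine Finset.sum_congr rfl fun σ _ => ?_
        rw [abs_mul, Finset.abs_prod]
        have : |((Equiv.Perm.sign σ : ℤˣ) : ℤ)| = 1 := by
          rcases Int.units_eq_one_or (Equiv.Perm.sign σ) with h | h <;> simp [h]
        rw [this, one_mul]
        rfl
    _ ≤ ∑ f : Fin r → Fin r, ∏ i, |M i (f i)| := by
        have hinj : Function.Injective (fun σ : Equiv.Perm (Fin r) => (σ : Fin r → Fin r)) :=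
          DFunLike.coe_injective
        rw [← Finset.sum_image (s := Finset.univ)
          (g := fun σ : Equiv.Perm (Fin r) => (σ : Fin r → Fin r))
          (f := fun f : Fin r → Fin r => ∏ i, |M i (f i)|) (by
            intro a _ b _ hab
            exact hinj hab)]
        exact Finset.sum_le_sum_of_subset_of_nonneg (Finset.subset_univ _)
          fun f _ _ => Finset.prod_nonneg fun i _ => abs_nonneg _
    _ = ∏ i, ∑ l, |M i l| := by
        rw [Finset.prod_univ_sum]
        simp [Fintype.piFinset_univ]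
    _ ≤ ∏ _i : Fin r, b := Finset.prod_le_prod (fun i _ => Finset.sum_nonneg fun l _ => abs_nonneg _)
        fun i _ => h i
    _ = b ^ r := by simp

theorem sum_cols_le {I : Type*} [Fintype I] [DecidableEq I] {r : ℕ} (v : I → ℤ) (b : ℤ)
    (hv : ∑ i, |v i| ≤ b) (C : Fin r → I) (hC : Function.Injective C) :
    ∑ l, |v (C l)| ≤ b := by
  classical
  have : ∑ l, |v (C l)| = ∑ i ∈ Finset.univ.image C, |v i| := by
    rw [Finset.sum_image]
    intro a _ b _ hab
    exact hC hab
  rw [this]
  exact (Finset.sum_le_sum_of_subset_of_nonneg (Finset.subset_univ _)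
    fun i _ _ => abs_nonneg _).trans hv

theorem inj_of_det_ne_zero {I F : Type*} {r : ℕ} (row : F → I → ℤ) (R : Fin r → F)
    (C : Fin r → I) (h : (Matrix.of fun k l => row (R k) (C l)).det ≠ 0) :
    Function.Injective C := by
  intro i j hij
  by_contra hne
  apply h
  refine Matrix.det_zero_of_column_eq hne ?_
  intro k
  simp [hij]

theorem exists_shift {I F : Type*} [Fintype I] [DecidableEq I] (p : ℕ) [Fact p.Prime] (r0 : ℕ)
    (hr0 : (4 : ℤ) ^ r0 < p) (row : F → I → ℤ) (hrow : ∀ f, ∑ i, |row f i| ≤ 4)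
    (c : F → ℤ) (a : I → ℤ) (hc : ∀ f, ∑ i, row f i * a i = p * c f)
    (hgood : ∀ (R : Fin r0 → F) (C : Fin r0 → I),
      (p : ℤ) ∣ (Matrix.of (fun k l => row (R k) (C l))).det) :
    ∃ t : I → ZMod p, ∀ f, ∑ i, (row f i : ZMod p) * t i = (c f : ZMod p) := by
  classical
  have hp : p.Prime := Fact.out
  -- the largest size of a minor which is nonzero modulo p
  let P : ℕ → Prop := fun r => ∃ (R : Fin r → F) (C : Fin r → I),
    ¬ (p : ℤ) ∣ (Matrix.of (fun k l => row (R k) (C l))).det
  have hP0 : P 0 := by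
    refine ⟨Fin.elim0, Fin.elim0, ?_⟩
    simp only [Matrix.det_isEmpty]
    intro h
    have := Int.eq_one_of_dvd_one (by positivity) h
    have h1 : p = 1 := by exact_mod_cast this
    exact hp.one_lt.ne' h1
  have hPr0 : ¬ P r0 := by
    rintro ⟨R, C, h⟩
    exact h (hgood R C)
  obtain ⟨r, hrlt, hr, hr1⟩ : ∃ r, r < r0 ∧ P r ∧ ¬ P (r + 1) := by
    by_contra hcon
    push Not at hcon
    have : ∀ r, r ≤ r0 → P r := by
      intro r
      induction r with
      | zero => intro _; exact hP0
      | succ r ih => intro h; exact hcon r (by omega) (ih (by omega))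
    exact hPr0 (this r0 le_rfl)
  obtain ⟨R, C, hm⟩ := hr
  set M : Matrix (Fin r) (Fin r) ℤ := Matrix.of (fun k l => row (R k) (C l)) with hM
  set m : ℤ := M.det with hmdef
  have hm0 : m ≠ 0 := by
    intro h; apply hm; rw [h]; exact dvd_zero _
  have hCinj : Function.Injective C := inj_of_det_ne_zero row R C hm0
  -- all larger minors vanish
  have hbig : ∀ (f : F) (j : I),
      (Matrix.of (fun k l => row ((Fin.snoc R f : Fin (r + 1) → F) k)
        ((Fin.snoc C j : Fin (r + 1) → I) l))).det = 0 := by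
    intro f j
    by_contra hne
    have hinj := inj_of_det_ne_zero row (Fin.snoc R f : Fin (r + 1) → F) (Fin.snoc C j) hne
    have hdvd : (p : ℤ) ∣ (Matrix.of (fun k l => row ((Fin.snoc R f : Fin (r + 1) → F) k)
        ((Fin.snoc C j : Fin (r + 1) → I) l))).det := by
      by_contra h
      exact hr1 ⟨_, _, h⟩
    have hle := abs_det_le (Matrix.of (fun k l => row ((Fin.snoc R f : Fin (r + 1) → F) k)
        ((Fin.snoc C j : Fin (r + 1) → I) l))) 4 (by
        intro k
        exact sum_cols_le (row ((Fin.snoc R f : Fin (r + 1) → F) k)) 4 (hrow _) _ hinj)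
    have h1 : (p : ℤ) ≤ |(Matrix.of (fun k l => row ((Fin.snoc R f : Fin (r + 1) → F) k)
        ((Fin.snoc C j : Fin (r + 1) → I) l))).det| :=
      Int.le_of_dvd (abs_pos.mpr hne) ((dvd_abs _ _).mpr hdvd)
    have h2 : (4 : ℤ) ^ (r + 1) ≤ 4 ^ r0 := pow_le_pow_right₀ (by norm_num) (by omega)
    linarith
  -- expansion along the last column
  have hexp : ∀ f, ∃ μ : Fin r → ℤ, ∀ j, m * row f j = ∑ k, μ k * row (R k) j := by
    intro f
    let mk : Fin (r + 1) → ℤ := fun k =>
      (Matrix.of (fun k' l' : Fin r => row ((Fin.snoc R f : Fin (r + 1) → F) (k.succAbove k'))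
        (C l'))).det
    have hmkl : mk (Fin.last r) = m := by
      simp only [mk, Fin.succAbove_last, Fin.snoc_castSucc]
      rfl
    refine ⟨fun k => - ((-1) ^ ((k : ℕ) + r) * mk k.castSucc), fun j => ?_⟩
    have h := hbig f j
    rw [Matrix.det_succ_column _ (Fin.last r)] at h
    have hs : ∀ k : Fin (r + 1), ((Matrix.of (fun k l => row ((Fin.snoc R f : Fin (r + 1) → F) k)
        ((Fin.snoc C j : Fin (r + 1) → I) l))).submatrix k.succAbove
          (Fin.last r).succAbove).det = mk k := by
      intro k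
      simp only [mk]
      congr 1
      ext k' l'
      simp [Matrix.submatrix, Fin.succAbove_last, Fin.snoc_castSucc]
    simp only [hs] at h
    rw [Fin.sum_univ_castSucc] at h
    simp only [Matrix.of_apply, Fin.snoc_castSucc, Fin.snoc_last, hmkl, Fin.val_last,
      Fin.val_castSucc] at h
    have hpow : ((-1 : ℤ)) ^ (r + r) = 1 := by
      rw [← two_mul, pow_mul]; simp
    rw [hpow] at h
    have : m * row f j = - ∑ x : Fin r, (-1) ^ ((x : ℕ) + r) * row (R x) j * mk x.castSucc := by
      linarith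
    rw [this, ← Finset.sum_neg_distrib]
    refine Finset.sum_congr rfl fun k _ => ?_
    ring
  -- the solution on the chosen columns
  let u : Fin r → ℤ := M.adjugate.mulVec (fun k => c (R k))
  have hu : ∀ k, ∑ l, row (R k) (C l) * u l = m * c (R k) := by
    intro k
    have h1 : M.mulVec u = fun k => m * c (R k) := by
      simp only [u, Matrix.mulVec_mulVec, Matrix.mul_adjugate]
      ext k
      simp [Matrix.smul_mulVec, hmdef]
    have := congrFun h1 k
    simpa [Matrix.mulVec, dotProduct, hM] using this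
  have hmain : ∀ f, ∑ l, row f (C l) * u l = m * c f := by
    intro f
    obtain ⟨μ, hμ⟩ := hexp f
    have h1 : m * (∑ l, row f (C l) * u l) = m * (∑ k, μ k * c (R k)) := by
      calc m * (∑ l, row f (C l) * u l) = ∑ l, (m * row f (C l)) * u l := by
            rw [Finset.mul_sum]; exact Finset.sum_congr rfl fun l _ => by ring
        _ = ∑ l, (∑ k, μ k * row (R k) (C l)) * u l := by simp_rw [hμ]
        _ = ∑ l, ∑ k, μ k * row (R k) (C l) * u l := by simp_rw [Finset.sum_mul]
        _ = ∑ k, ∑ l, μ k * row (R k) (C l) * u l := Finset.sum_comm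
        _ = ∑ k, μ k * (∑ l, row (R k) (C l) * u l) := by
            refine Finset.sum_congr rfl fun k _ => ?_
            rw [Finset.mul_sum]; exact Finset.sum_congr rfl fun l _ => by ring
        _ = ∑ k, μ k * (m * c (R k)) := by simp_rw [hu]
        _ = m * (∑ k, μ k * c (R k)) := by
            rw [Finset.mul_sum]; exact Finset.sum_congr rfl fun l _ => by ring
    have h2 : (p : ℤ) * (m * c f) = p * (∑ k, μ k * c (R k)) := by
      calc (p : ℤ) * (m * c f) = m * (∑ i, row f i * a i) := by rw [hc f]; ring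
        _ = ∑ i, (m * row f i) * a i := by
            rw [Finset.mul_sum]; exact Finset.sum_congr rfl fun l _ => by ring
        _ = ∑ i, (∑ k, μ k * row (R k) i) * a i := by simp_rw [hμ]
        _ = ∑ i, ∑ k, μ k * row (R k) i * a i := by simp_rw [Finset.sum_mul]
        _ = ∑ k, ∑ i, μ k * row (R k) i * a i := Finset.sum_comm
        _ = ∑ k, μ k * (∑ i, row (R k) i * a i) := by
            refine Finset.sum_congr rfl fun k _ => ?_
            rw [Finset.mul_sum]; exact Finset.sum_congr rfl fun l _ => by ring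
        _ = ∑ k, μ k * (p * c (R k)) := by simp_rw [hc]
        _ = p * (∑ k, μ k * c (R k)) := by
            rw [Finset.mul_sum]; exact Finset.sum_congr rfl fun l _ => by ring
    have hp0 : (p : ℤ) ≠ 0 := by exact_mod_cast hp.ne_zero
    rw [mul_left_cancel₀ hm0 h1, ← mul_left_cancel₀ hp0 h2]
  -- reduce modulo p
  have hmz : (m : ZMod p) ≠ 0 := by
    intro h
    exact hm ((ZMod.intCast_zmod_eq_zero_iff_dvd m p).mp h)
  refine ⟨fun i => ∑ l, if C l = i then (u l : ZMod p) * (m : ZMod p)⁻¹ else 0, fun f => ?_⟩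
  have h1 : ∑ i, (row f i : ZMod p) * (∑ l, if C l = i then (u l : ZMod p) * (m : ZMod p)⁻¹ else 0)
      = ∑ l, (row f (C l) : ZMod p) * (u l : ZMod p) * (m : ZMod p)⁻¹ := by
    calc ∑ i, (row f i : ZMod p) * (∑ l, if C l = i then (u l : ZMod p) * (m : ZMod p)⁻¹ else 0)
        = ∑ i, ∑ l, (if C l = i then (row f i : ZMod p) * ((u l : ZMod p) * (m : ZMod p)⁻¹)
            else 0) := by
          refine Finset.sum_congr rfl fun i _ => ?_
          rw [Finset.mul_sum]
          refine Finset.sum_congr rfl fun l _ => ?_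
          split_ifs <;> simp
      _ = ∑ l, ∑ i, (if C l = i then (row f i : ZMod p) * ((u l : ZMod p) * (m : ZMod p)⁻¹)
            else 0) := Finset.sum_comm
      _ = _ := by
          refine Finset.sum_congr rfl fun l _ => ?_
          rw [Finset.sum_ite_eq]
          simp [mul_assoc]
  rw [h1, ← Finset.sum_mul]
  have h2 := congrArg (fun z : ℤ => (z : ZMod p)) (hmain f)
  push_cast at h2
  rw [h2]
  field_simp

end Pool.Agent.H82.GpMaj
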