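import Pool.Agent.H.MP_c695c6_lc.helper82.WideCount

/-!
The two operations on `X p K`, and their tables at the neutral element.
-/

namespace Pool.Agent.H82.GpMaj

open Finset
open scoped Classical

variable {p : ℕ} [Fact p.Prime] {K : Type} [AddCommGroup K]

theorem carryZ_zero_right (a : ZMod p) : carryZ a 0 = 0 := by
  unfold carryZ
  rw [if_neg]
  have := ZMod.val_lt a
  rw [ZMod.val_zero]
  omega

theorem carryZ_zero_left (a : ZMod p) : carryZ 0 a = 0 := by
  unfold carryZ
  rw [if_neg]
  have := ZMod.val_lt a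
  rw [ZMod.val_zero]
  omega

theorem carryZ_comm (a b : ZMod p) : carryZ a b = carryZ b a := by
  unfold carryZ
  rw [add_comm]

/-- `0` is neutral -/
structure Neu (op : X p K → X p K → X p K) : Prop where
  r : ∀ x, op x 0 = x
  l : ∀ x, op 0 x = x

theorem neu0 : Neu (op0 : X p K → X p K → X p K) :=
  ⟨fun x => add_zero x, fun x => zero_add x⟩

theorem neu1 : Neu (op1 : X p K → X p K → X p K) := by
  constructor
  · intro x
    unfold op1
    have h : carryZ x.1.1 (0 : X p K).1.1 = 0 := carryZ_zero_right _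
    rw [h]
    ext <;> simp
  · intro x
    unfold op1
    have h : carryZ (0 : X p K).1.1 x.1.1 = 0 := carryZ_zero_left _
    rw [h]
    ext <;> simp

theorem opOk0 : OpOk (op0 : X p K → X p K → X p K) := by
  refine ⟨fun x y => rfl, fun x y h => ?_, fun x y h => ?_⟩
  · exact add_eq_left.mp h
  · exact add_eq_right.mp h

theorem opOk1 : OpOk (op1 : X p K → X p K → X p K) := by
  refine ⟨fun x y => rfl, fun x y h => ?_, fun x y h => ?_⟩
  · have h1 : x.1 + y.1 = x.1 := congrArg Prod.fst h
    have h2 : y.1 = 0 := add_eq_left.mp h1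
    have h3 : x.2 + y.2 + (carryZ x.1.1 y.1.1 : ZMod p) = x.2 := congrArg Prod.snd h
    rw [h2] at h3
    have h4 : carryZ x.1.1 (0 : ZMod p × K).1 = 0 := carryZ_zero_right _
    rw [h4] at h3
    have h5 : y.2 = 0 := by
      rw [Int.cast_zero, add_zero] at h3
      exact add_eq_left.mp h3
    exact Prod.ext h2 h5
  · have h1 : x.1 + y.1 = y.1 := congrArg Prod.fst h
    have h2 : x.1 = 0 := add_eq_right.mp h1
    have h3 : x.2 + y.2 + (carryZ x.1.1 y.1.1 : ZMod p) = y.2 := congrArg Prod.snd h
    rw [h2] at h3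
    have h4 : carryZ (0 : ZMod p × K).1 y.1.1 = 0 := carryZ_zero_left _
    rw [h4] at h3
    have h5 : x.2 = 0 := by
      rw [Int.cast_zero, add_zero] at h3
      exact add_eq_right.mp h3
    exact Prod.ext h2 h5

section tab

variable {ι : Type} {op : X p K → X p K → X p K} (π : ι ≃ X p K) (e : ι)

theorem tab_left (hop : Neu op) (he : π e = 0) (j : ι) : tab op π e j = j := by
  unfold tab
  rw [he, hop.l]
  simp

theorem tab_right (hop : Neu op) (he : π e = 0) (i : ι) : tab op π i e = i := by
  unfold tab
  rw [he, hop.r]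
  simp

theorem tab_self (hop : Neu op) (hok : OpOk op) : tab op π e e = e ↔ π e = 0 := by
  constructor
  · intro h
    unfold tab at h
    rw [Equiv.symm_apply_eq] at h
    exact hok.l _ _ h
  · intro h
    exact tab_left π e hop h e

end tab

end Pool.Agent.H82.GpMaj
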