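import Pool.Agent.H.MP_c695c6_lc.helper82.Gate

/-!
The choice of the parameters.
-/

namespace Pool.Agent.H82.GpMaj

open Finset

theorem eps_mono_bound (p n M k r0 D : ℕ) (z : ℝ) (hz1 : bq p D ^ r0 ≤ z)
    (hz2 : bq p (2 * k + 1) ^ r0 ≤ z) (hz3 : (8 / 9 : ℝ) ^ (k - 2 * r0) ≤ z) :
    epsGate p n M k r0 D ≤ n * ((2 + 6 * M) * z) := by
  unfold epsGate
  refine mul_le_mul_of_nonneg_left ?_ (by positivity)
  have hM : (0 : ℝ) ≤ M := by positivity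
  have h1 : (M : ℝ) * ((8 / 9 : ℝ) ^ (k - 2 * r0) + 2 * bq p (2 * k + 1) ^ r0) ≤ M * (3 * z) := by
    refine mul_le_mul_of_nonneg_left ?_ hM
    linarith
  linarith

/-- the basic size estimates; `y = 2^(L/30)` -/
theorem param_basic (L p n M : ℕ) (y : ℝ) (hy : y ^ 30 = 2 ^ L) (hy1 : 1 ≤ y)
    (hL : (2 ^ 40 : ℝ) * (L : ℝ) ^ 16 ≤ y) (hL2 : 1 ≤ L) (hp1 : 2 ^ L ≤ p)
    (hp2 : p < 2 ^ (L + 1)) (hn1 : p ^ 2 ≤ n) (hn2 : n ≤ 5 * p ^ 2) (hM : M ^ 10 ≤ n) :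
    (n : ℝ) ≤ 20 * y ^ 60 ∧ (M : ℝ) ≤ 2 * y ^ 6 ∧
    10 * (3 * (3 * L ^ 2) + 1) ≤ n ∧ (2 * (3 * L ^ 2) + 1) * (2 * (3 * L ^ 2) + 1) ≤ n ∧
    (1 + M * (2 * (4 * (3 * L ^ 2) * (3 * L ^ 2)))) *
      (1 + M * (2 * (4 * (3 * L ^ 2) * (3 * L ^ 2)))) ≤ n ∧
    bq p (1 + M * (2 * (4 * (3 * L ^ 2) * (3 * L ^ 2)))) ≤ (y ^ 5)⁻¹ ∧
    bq p (2 * (3 * L ^ 2) + 1) ≤ (y ^ 5)⁻¹ := by
  have hy0 : 0 < y := by linarith
  have hLr : (1 : ℝ) ≤ L := by exact_mod_cast hL2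
  have hp1r : y ^ 30 ≤ (p : ℝ) := by rw [hy]; exact_mod_cast hp1
  have hp2r : (p : ℝ) ≤ 2 * y ^ 30 := by
    rw [hy]
    have : (p : ℝ) < 2 ^ (L + 1) := by exact_mod_cast hp2
    rw [pow_succ] at this
    linarith
  have hppos : (0 : ℝ) < p := lt_of_lt_of_le (by positivity) hp1r
  have hnr : (n : ℝ) ≤ 20 * y ^ 60 := by
    have h1 : (n : ℝ) ≤ 5 * (p : ℝ) ^ 2 := by exact_mod_cast hn2
    have h2 : (p : ℝ) ^ 2 ≤ (2 * y ^ 30) ^ 2 := pow_le_pow_left₀ hppos.le hp2r 2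
    have h3 : (2 * y ^ 30) ^ 2 = 4 * y ^ 60 := by ring
    linarith
  have hnl : y ^ 60 ≤ (n : ℝ) := by
    have h1 : (p : ℝ) ^ 2 ≤ n := by exact_mod_cast hn1
    have h2 : (y ^ 30) ^ 2 ≤ (p : ℝ) ^ 2 := pow_le_pow_left₀ (by positivity) hp1r 2
    have h3 : (y ^ 30) ^ 2 = y ^ 60 := by ring
    linarith
  have hMr : (M : ℝ) ≤ 2 * y ^ 6 := by
    by_contra hcon
    push Not at hcon
    have h1 : (2 * y ^ 6) ^ 10 < (M : ℝ) ^ 10 :=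
      pow_lt_pow_left₀ hcon (by positivity) (by norm_num)
    have h2 : (M : ℝ) ^ 10 ≤ n := by exact_mod_cast hM
    have h3 : (2 * y ^ 6) ^ 10 = 1024 * y ^ 60 := by ring
    have h4 : (0 : ℝ) < y ^ 60 := by positivity
    linarith
  have hLpow : ∀ j : ℕ, j ≤ 16 → (L : ℝ) ^ j ≤ (L : ℝ) ^ 16 := fun j hj =>
    pow_le_pow_right₀ hLr hj
  have hL16 : (1 : ℝ) ≤ (L : ℝ) ^ 16 := one_le_pow₀ hLr
  have hyy : ∀ j : ℕ, 1 ≤ j → j ≤ 60 → y ^ j ≤ n := by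
    intro j h1 h2
    exact (pow_le_pow_right₀ hy1 h2).trans hnl
  -- the two index bounds
  have hD : ((1 + M * (2 * (4 * (3 * L ^ 2) * (3 * L ^ 2))) : ℕ) : ℝ) ≤
      219 * y ^ 6 * (L : ℝ) ^ 4 := by
    push_cast
    have h1 : (1 : ℝ) ≤ y ^ 6 := one_le_pow₀ hy1
    have h2 : (1 : ℝ) ≤ (L : ℝ) ^ 4 := one_le_pow₀ hLr
    have h3 : (M : ℝ) * (2 * (4 * (3 * (L : ℝ) ^ 2) * (3 * (L : ℝ) ^ 2))) ≤
        2 * y ^ 6 * (2 * (4 * (3 * (L : ℝ) ^ 2) * (3 * (L : ℝ) ^ 2))) :=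
      mul_le_mul_of_nonneg_right hMr (by positivity)
    have h4 : (1 : ℝ) ≤ y ^ 6 * (L : ℝ) ^ 4 := by nlinarith
    have h5 : 2 * y ^ 6 * (2 * (4 * (3 * (L : ℝ) ^ 2) * (3 * (L : ℝ) ^ 2))) =
      144 * (y ^ 6 * (L : ℝ) ^ 4) := by ring
    linarith
  have hk : ((2 * (3 * L ^ 2) + 1 : ℕ) : ℝ) ≤ 219 * y ^ 6 * (L : ℝ) ^ 4 := by
    push_cast
    have h1 : (1 : ℝ) ≤ y ^ 6 := one_le_pow₀ hy1
    have h2 : (1 : ℝ) ≤ (L : ℝ) ^ 4 := one_le_pow₀ hLr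
    have h3 : (L : ℝ) ^ 2 ≤ (L : ℝ) ^ 4 := pow_le_pow_right₀ hLr (by norm_num)
    have h4 : (L : ℝ) ^ 4 ≤ y ^ 6 * (L : ℝ) ^ 4 := by nlinarith
    linarith
  have hbq : ∀ D : ℕ, 1 ≤ D → (D : ℝ) ≤ 219 * y ^ 6 * (L : ℝ) ^ 4 →
      D * D ≤ n ∧ bq p D ≤ (y ^ 5)⁻¹ := by
    intro D hD1 hDr
    have hD1r : (1 : ℝ) ≤ D := by exact_mod_cast hD1
    constructor
    · have h1 : 219 * y ^ 6 * (L : ℝ) ^ 4 ≤ y ^ 7 := by
        have h2 := hLpow 4 (by norm_num)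
        have h3 : 219 * (L : ℝ) ^ 4 ≤ y := by linarith
        have h4 : (219 * (L : ℝ) ^ 4) * y ^ 6 ≤ y * y ^ 6 :=
          mul_le_mul_of_nonneg_right h3 (by positivity)
        calc 219 * y ^ 6 * (L : ℝ) ^ 4 = (219 * (L : ℝ) ^ 4) * y ^ 6 := by ring
          _ ≤ y * y ^ 6 := h4
          _ = y ^ 7 := by ring
      have h2 : (D : ℝ) * D ≤ y ^ 7 * y ^ 7 :=
        mul_le_mul (hDr.trans h1) (hDr.trans h1) (by positivity) (by positivity)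
      have h3 : y ^ 7 * y ^ 7 = y ^ 14 := by ring
      have h4 := hyy 14 (by norm_num) (by norm_num)
      have h5 : (D : ℝ) * D ≤ n := by linarith
      exact_mod_cast h5
    · unfold bq
      have h1 : (D : ℝ) + D ^ 2 ≤ 2 * (D : ℝ) ^ 2 := by nlinarith
      have h2 : ((D : ℝ) + D ^ 2) ^ 2 ≤ (2 * (D : ℝ) ^ 2) ^ 2 :=
        pow_le_pow_left₀ (by positivity) h1 2
      have h3 : (2 * (D : ℝ) ^ 2) ^ 2 = 4 * (D : ℝ) ^ 4 := by ring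
      have h4 : (D : ℝ) ^ 4 ≤ (219 * y ^ 6 * (L : ℝ) ^ 4) ^ 4 :=
        pow_le_pow_left₀ (by positivity) hDr 4
      have h5 : (219 * y ^ 6 * (L : ℝ) ^ 4) ^ 4 = 219 ^ 4 * (y ^ 24 * (L : ℝ) ^ 16) := by ring
      have h6 : 4 * (219 ^ 4 * (y ^ 24 * (L : ℝ) ^ 16)) ≤ y ^ 25 := by
        have h7 : (4 * 219 ^ 4 : ℝ) * (L : ℝ) ^ 16 ≤ y := by
          refine le_trans ?_ hL
          exact mul_le_mul_of_nonneg_right (by norm_num) (by positivity)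
        have h8 : ((4 * 219 ^ 4 : ℝ) * (L : ℝ) ^ 16) * y ^ 24 ≤ y * y ^ 24 :=
          mul_le_mul_of_nonneg_right h7 (by positivity)
        calc 4 * (219 ^ 4 * (y ^ 24 * (L : ℝ) ^ 16)) =
            ((4 * 219 ^ 4 : ℝ) * (L : ℝ) ^ 16) * y ^ 24 := by ring
          _ ≤ y * y ^ 24 := h8
          _ = y ^ 25 := by ring
      have h9 : ((D : ℝ) + D ^ 2) ^ 2 ≤ y ^ 25 := by linarith
      rw [div_le_iff₀ hppos]
      refine h9.trans ?_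
      have h10 : y ^ 25 = (y ^ 5)⁻¹ * y ^ 30 := by
        field_simp
        try ring
      rw [h10]
      exact mul_le_mul_of_nonneg_left hp1r (by positivity)
  refine ⟨hnr, hMr, ?_, (hbq _ (by omega) hk).1, (hbq _ (by omega) hD).1,
    (hbq _ (by omega) hD).2, (hbq _ (by omega) hk).2⟩
  have h1 : ((10 * (3 * (3 * L ^ 2) + 1) : ℕ) : ℝ) ≤ n := by
    push_cast
    have h2 := hLpow 2 (by norm_num)
    have h3 := hyy 1 (by norm_num) (by norm_num)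
    rw [pow_one] at h3
    linarith
  exact_mod_cast h1

end Pool.Agent.H82.GpMaj
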