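import Pool.Agent.H.MP_c695c6_lc.helper82.Param

/-!
The final estimate of the error.
-/

namespace Pool.Agent.H82.GpMaj

open Finset

theorem param_final (L p n M : ℕ) (hL2 : 1000 ≤ L)
    (hL : (2 ^ 40 : ℝ) * (L : ℝ) ^ 16 ≤ (2 : ℝ) ^ ((L : ℝ) / 30)) (hp1 : 2 ^ L ≤ p)
    (hp2 : p < 2 ^ (L + 1)) (hn1 : p ^ 2 ≤ n) (hn2 : n ≤ 5 * p ^ 2) (hM : M ^ 10 ≤ n) :
    10 * (3 * (3 * L ^ 2) + 1) ≤ n ∧ (2 * (3 * L ^ 2) + 1) * (2 * (3 * L ^ 2) + 1) ≤ n ∧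
    (1 + M * (2 * (4 * (3 * L ^ 2) * (3 * L ^ 2)))) *
      (1 + M * (2 * (4 * (3 * L ^ 2) * (3 * L ^ 2)))) ≤ n ∧
    (2 : ℝ) ^ ((Nat.log 2 n) ^ 2 / 60) * epsGate p n M (3 * L ^ 2) ((L - 1) / 2)
      (1 + M * (2 * (4 * (3 * L ^ 2) * (3 * L ^ 2)))) < 1 := by
  set y : ℝ := (2 : ℝ) ^ ((L : ℝ) / 30) with hydef
  have hy0 : 0 < y := by rw [hydef]; positivity
  have hy1 : 1 ≤ y := by
    rw [hydef]; exact Real.one_le_rpow (by norm_num) (by positivity)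
  have hpow : ∀ j : ℕ, y ^ j = (2 : ℝ) ^ ((L : ℝ) / 30 * j) := by
    intro j
    rw [hydef, ← Real.rpow_natCast, ← Real.rpow_mul (by norm_num)]
  have hy : y ^ 30 = 2 ^ L := by
    rw [hpow, ← Real.rpow_natCast]
    congr 1
    push_cast
    ring
  obtain ⟨b1, b2, b3, b4, b5, b6, b7⟩ :=
    param_basic L p n M y hy hy1 hL (by omega) hp1 hp2 hn1 hn2 hM
  refine ⟨b3, b4, b5, ?_⟩
  set r0 := (L - 1) / 2 with hr0
  set z : ℝ := ((y ^ 5)⁻¹) ^ r0 with hz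
  have hz0 : 0 < z := by rw [hz]; positivity
  have hz3 : (8 / 9 : ℝ) ^ (3 * L ^ 2 - 2 * r0) ≤ z := by
    have h1 : 6 * (L * r0) ≤ 3 * L ^ 2 - 2 * r0 := by
      have h2 : 2 * r0 ≤ L - 1 := by omega
      have h3 : 2 * r0 + 1 ≤ L := by omega
      have h4 : 6 * (L * r0) + 2 * r0 ≤ 3 * L ^ 2 := by nlinarith
      omega
    have h2 : (8 / 9 : ℝ) ^ (3 * L ^ 2 - 2 * r0) ≤ (8 / 9 : ℝ) ^ (6 * (L * r0)) :=
      pow_le_pow_of_le_one (by norm_num) (by norm_num) h1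
    have h3 : (8 / 9 : ℝ) ^ (6 * (L * r0)) ≤ (1 / 2 : ℝ) ^ (L * r0) := by
      rw [pow_mul]
      exact pow_le_pow_left₀ (by positivity) (by norm_num) _
    have h4 : (1 / 2 : ℝ) ^ (L * r0) ≤ z := by
      rw [hz, pow_mul]
      refine pow_le_pow_left₀ (by positivity) ?_ _
      rw [one_div, inv_pow, ← hy]
      refine inv_anti₀ (by positivity) ?_
      exact pow_le_pow_right₀ hy1 (by norm_num)
    exact h2.trans (h3.trans h4)
  have hz1 : bq p (1 + M * (2 * (4 * (3 * L ^ 2) * (3 * L ^ 2)))) ^ r0 ≤ z :=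
    pow_le_pow_left₀ (bq_nonneg _ _) b6 _
  have hz2 : bq p (2 * (3 * L ^ 2) + 1) ^ r0 ≤ z :=
    pow_le_pow_left₀ (bq_nonneg _ _) b7 _
  have heps := eps_mono_bound p n M (3 * L ^ 2) r0
    (1 + M * (2 * (4 * (3 * L ^ 2) * (3 * L ^ 2)))) z hz1 hz2 hz3
  have h66 : (n : ℝ) * ((2 + 6 * M) * z) ≤ 280 * y ^ 66 * z := by
    have h1 : (2 + 6 * (M : ℝ)) ≤ 14 * y ^ 6 := by
      have : (1 : ℝ) ≤ y ^ 6 := one_le_pow₀ hy1
      linarith
    have h2 : (n : ℝ) * (2 + 6 * (M : ℝ)) ≤ (20 * y ^ 60) * (14 * y ^ 6) :=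
      mul_le_mul b1 h1 (by positivity) (by positivity)
    have h3 : (20 * y ^ 60) * (14 * y ^ 6) = 280 * y ^ 66 := by ring
    rw [← mul_assoc]
    exact mul_le_mul_of_nonneg_right (h2.trans h3.le) hz0.le
  -- the logarithm of `n`
  have hlog : Nat.log 2 n ≤ 2 * L + 4 := by
    have h1 : n < 2 ^ (2 * L + 5) := by
      have h2 : p ^ 2 < (2 ^ (L + 1)) ^ 2 := Nat.pow_lt_pow_left hp2 (by norm_num)
      have h3 : (2 ^ (L + 1)) ^ 2 = 4 * 2 ^ (2 * L) := by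
        rw [← pow_mul, show (L + 1) * 2 = 2 * L + 2 by ring, pow_add]; ring
      have h4 : 2 ^ (2 * L + 5) = 32 * 2 ^ (2 * L) := by rw [pow_add]; ring
      have h5 : 0 < 2 ^ (2 * L) := by positivity
      omega
    have h2 : Nat.log 2 n < 2 * L + 5 := Nat.log_lt_of_lt_pow' (by omega) h1
    omega
  have hexp : (2 : ℝ) ^ ((Nat.log 2 n) ^ 2 / 60) ≤ (2 : ℝ) ^ ((2 * (L : ℝ) + 4) ^ 2 / 60) := by
    rw [← Real.rpow_natCast]
    refine Real.rpow_le_rpow_of_exponent_le (by norm_num) ?_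
    have h1 : (((Nat.log 2 n) ^ 2 / 60 : ℕ) : ℝ) ≤ ((Nat.log 2 n) ^ 2 : ℕ) / (60 : ℕ) :=
      Nat.cast_div_le
    refine h1.trans ?_
    push_cast
    refine div_le_div_of_nonneg_right ?_ (by norm_num)
    refine pow_le_pow_left₀ (by positivity) ?_ 2
    have : ((Nat.log 2 n : ℕ) : ℝ) ≤ ((2 * L + 4 : ℕ) : ℝ) := by exact_mod_cast hlog
    push_cast at this
    exact this
  have hr0r : ((L : ℝ) - 2) / 2 ≤ (r0 : ℝ) := by
    have h1 : L ≤ 2 * r0 + 2 := by omega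
    have h2 : (L : ℝ) ≤ 2 * r0 + 2 := by exact_mod_cast h1
    linarith
  have hLr : (1000 : ℝ) ≤ L := by exact_mod_cast hL2
  have hmain : (2 : ℝ) ^ ((2 * (L : ℝ) + 4) ^ 2 / 60) * (280 * y ^ 66) < (y ^ 5) ^ r0 := by
    have h512 : (280 : ℝ) ≤ (2 : ℝ) ^ (9 : ℝ) := by
      rw [show (9 : ℝ) = ((9 : ℕ) : ℝ) by norm_num, Real.rpow_natCast]; norm_num
    have h1 : (2 : ℝ) ^ ((2 * (L : ℝ) + 4) ^ 2 / 60) * (280 * y ^ 66) ≤
        (2 : ℝ) ^ ((2 * (L : ℝ) + 4) ^ 2 / 60 + (9 + (L : ℝ) / 30 * 66)) := by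
      rw [Real.rpow_add (by norm_num), Real.rpow_add (by norm_num)]
      refine mul_le_mul_of_nonneg_left ?_ (by positivity)
      have h2 := hpow 66
      push_cast at h2
      rw [h2]
      exact mul_le_mul_of_nonneg_right h512 (by positivity)
    refine h1.trans_lt ?_
    rw [← pow_mul, hpow]
    refine Real.rpow_lt_rpow_of_exponent_lt (by norm_num) ?_
    push_cast
    have h3 : (L : ℝ) / 30 * (5 * (((L : ℝ) - 2) / 2)) ≤ (L : ℝ) / 30 * (5 * (r0 : ℝ)) := by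
      refine mul_le_mul_of_nonneg_left ?_ (by positivity)
      linarith
    refine lt_of_lt_of_le ?_ h3
    nlinarith
  have hzy : (y ^ 5) ^ r0 * z = 1 := by
    rw [hz, ← mul_pow, mul_inv_cancel₀ (by positivity), one_pow]
  calc (2 : ℝ) ^ ((Nat.log 2 n) ^ 2 / 60) * epsGate p n M (3 * L ^ 2) r0
          (1 + M * (2 * (4 * (3 * L ^ 2) * (3 * L ^ 2))))
      ≤ (2 : ℝ) ^ ((2 * (L : ℝ) + 4) ^ 2 / 60) * (280 * y ^ 66 * z) := by
        refine mul_le_mul hexp (heps.trans h66) ?_ (by positivity)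
        unfold epsGate
        have := bq_nonneg p (1 + M * (2 * (4 * (3 * L ^ 2) * (3 * L ^ 2))))
        have := bq_nonneg p (2 * (3 * L ^ 2) + 1)
        positivity
    _ = (2 : ℝ) ^ ((2 * (L : ℝ) + 4) ^ 2 / 60) * (280 * y ^ 66) * z := by ring
    _ < (y ^ 5) ^ r0 * z := mul_lt_mul_of_pos_right hmain hz0
    _ = 1 := hzy

/-- the condition on `L` holds for all large `L` -/
theorem exists_L0 : ∃ L0 : ℕ, ∀ L : ℕ, L0 ≤ L →
    (2 ^ 40 : ℝ) * (L : ℝ) ^ 16 ≤ (2 : ℝ) ^ ((L : ℝ) / 30) := by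
  have hr : (1 : ℝ) < (2 : ℝ) ^ ((1 : ℝ) / 30) := Real.one_lt_rpow (by norm_num) (by norm_num)
  have h := tendsto_pow_const_div_const_pow_of_one_lt 16 hr
  have h2 := (h.eventually (gt_mem_nhds (show (0 : ℝ) < (2 ^ 40)⁻¹ by positivity)))
  obtain ⟨L0, hL0⟩ := Filter.eventually_atTop.mp h2
  refine ⟨L0, fun L hL => ?_⟩
  have h3 := hL0 L hL
  have h4 : ((2 : ℝ) ^ ((1 : ℝ) / 30)) ^ L = (2 : ℝ) ^ ((L : ℝ) / 30) := by
    rw [← Real.rpow_natCast, ← Real.rpow_mul (by norm_num)]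
    congr 1
    ring
  rw [h4, div_lt_iff₀ (by positivity)] at h3
  have h5 : (2 ^ 40 : ℝ) * (L : ℝ) ^ 16 <
      (2 ^ 40 : ℝ) * ((2 ^ 40)⁻¹ * (2 : ℝ) ^ ((L : ℝ) / 30)) :=
    mul_lt_mul_of_pos_left h3 (by positivity)
  rw [← mul_assoc, mul_inv_cancel₀ (by positivity), one_mul] at h5
  exact h5.le

end Pool.Agent.H82.GpMaj
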