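import Mathlib

/-!
Iterated composition along the order, and its value on a product with the lexicographic order.
-/

namespace Pool.Agent.H82.GpLogic

/-- the composition `f (n-1) ∘ ... ∘ f 0` -/
def run {σ : Type*} (f : ℕ → σ → σ) : ℕ → σ → σ
  | 0 => id
  | n + 1 => fun s => f n (run f n s)

theorem run_congr {σ : Type*} (f g : ℕ → σ → σ) (n : ℕ) (h : ∀ i < n, f i = g i) :
    run f n = run g n := by
  induction n with
  | zero => rfl
  | succ n ih =>
    have h1 := ih (fun i hi => h i (by omega))
    have h2 := h n (by omega)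
    funext s
    simp only [run]
    rw [h1, h2]

theorem run_add {σ : Type*} (f : ℕ → σ → σ) (a b : ℕ) (s : σ) :
    run f (a + b) s = run (fun i => f (a + i)) b (run f a s) := by
  induction b with
  | zero => rfl
  | succ b ih =>
    show f (a + b) (run f (a + b) s) = _
    rw [ih]
    rfl

theorem run_mul {σ : Type*} (f : ℕ → σ → σ) (a m : ℕ) :
    run f (a * m) = run (fun h => run (fun l => f (h * m + l)) m) a := by
  induction a with
  | zero => simp [run]
  | succ a ih =>
    funext s
    rw [Nat.succ_mul, run_add, ih]
    rfl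

/-- the composition `g (n-1) ∘ ... ∘ g 0` of the functions `g x`, `x : Fin n` -/
def runF {σ : Type*} (n : ℕ) (g : Fin n → σ → σ) : σ → σ :=
  run (fun i => if h : i < n then g ⟨i, h⟩ else id) n

theorem foldl_finRange {σ : Type*} (n : ℕ) (g : Fin n → σ → σ) (s : σ) :
    (List.finRange n).foldl (fun s x => g x s) s = runF n g s := by
  induction n with
  | zero => simp [runF, run]
  | succ n ih =>
    rw [List.finRange_succ_last, List.foldl_append, List.foldl_map]
    simp only [List.foldl_cons, List.foldl_nil]
    rw [ih (fun x => g x.castSucc)]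
    unfold runF
    show _ = (fun i => if h : i < n + 1 then g ⟨i, h⟩ else id) n
      (run (fun i => if h : i < n + 1 then g ⟨i, h⟩ else id) n s)
    rw [run_congr (fun i => if h : i < n then g (Fin.castSucc ⟨i, h⟩) else id)
      (fun i => if h : i < n + 1 then g ⟨i, h⟩ else id) n]
    · simp only [lt_add_iff_pos_right, zero_lt_one, dif_pos]
      rfl
    · intro i hi
      rw [dif_pos hi, dif_pos (show i < n + 1 by omega)]
      rfl

/-- the name with first half `h` and second half `l` -/
def comb {a m : ℕ} (h : Fin a) (l : Fin m) : Fin (a * m) :=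
  ⟨h * m + l, by
    have h1 := h.2
    have h2 := l.2
    calc (h : ℕ) * m + l < h * m + m := by omega
      _ = (h + 1) * m := by ring
      _ ≤ a * m := Nat.mul_le_mul_right m h1⟩

theorem divNat_comb {a m : ℕ} (h : Fin a) (l : Fin m) : (comb h l).divNat = h := by
  apply Fin.ext
  have h2 := l.2
  show (h * m + l : ℕ) / m = h
  rw [mul_comm, Nat.mul_add_div (by omega), Nat.div_eq_of_lt h2, add_zero]

theorem modNat_comb {a m : ℕ} (h : Fin a) (l : Fin m) : (comb h l).modNat = l := by
  apply Fin.ext
  show (h * m + l : ℕ) % m = l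
  rw [mul_comm, Nat.mul_add_mod, Nat.mod_eq_of_lt l.2]

theorem comb_divNat_modNat {a m : ℕ} (x : Fin (a * m)) : comb x.divNat x.modNat = x := by
  apply Fin.ext
  show (x : ℕ) / m * m + x % m = x
  rw [mul_comm]
  exact Nat.div_add_mod _ _

theorem runF_mul {σ : Type*} (a m : ℕ) (g : Fin (a * m) → σ → σ) :
    runF (a * m) g = runF a (fun h => runF m (fun l => g (comb h l))) := by
  unfold runF
  rw [run_mul]
  apply run_congr
  intro h hh
  rw [dif_pos hh]
  apply run_congr
  intro l hl
  rw [dif_pos hl]
  have h1 : h * m + l < a * m :=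
    calc h * m + l < h * m + m := by omega
      _ = (h + 1) * m := by ring
      _ ≤ a * m := Nat.mul_le_mul_right m hh
  rw [dif_pos h1]
  rfl

end Pool.Agent.H82.GpLogic
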