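import Pool.Agent.H.MP_c695c6_lc.helper82.Local

/-!
An AND gate which constrains many positions away from the neutral element is almost never true.
-/

namespace Pool.Agent.H82.GpMaj

open Matrix Finset
open scoped Classical

theorem good_of_card_lt {J : Type*} [Fintype J] [DecidableEq J] (p r0 : ℕ)
    (h : Fintype.card J < r0) (α : J → ZMod p) : Good p r0 α := by
  intro R C _
  have hC : ¬ Function.Injective C := by
    intro hinj
    have := Fintype.card_le_of_injective C hinj
    simp at this
    omega
  have : (Matrix.of (fun k l => form (R k).1 (C l) - form (R k).2 (C l))).det = 0 := by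
    by_contra hne
    exact hC (inj_of_det_ne_zero (F := (J ⊕ J × J) × (J ⊕ J × J))
      (fun q i => form q.1 i - form q.2 i) R C hne)
  rw [this]
  exact dvd_zero _

section

variable {p : ℕ} [Fact p.Prime] {K : Type} [AddCommGroup K] [Fintype K]
variable {ι J : Type} [Fintype ι] [Fintype J] [DecidableEq J]

/-- the properties of the operation used below -/
structure OpOk (op : X p K → X p K → X p K) : Prop where
  a : ∀ x y, (op x y).1.1 = x.1.1 + y.1.1
  l : ∀ x y, op x y = x → y = 0
  r : ∀ x y, op x y = y → x = 0

/-- indices of positions whose entry is not a fresh element -/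
noncomputable def Stale {k : ℕ} (op : X p K → X p K → X p K) (P : Fin k → J × J)
    (x : J → X p K) : Finset (Fin k) :=
  Finset.univ.filter fun r => (∃ j, op (x (P r).1) (x (P r).2) = x j) ∨
    ∃ s, s ≠ r ∧ op (x (P s).1) (x (P s).2) = op (x (P r).1) (x (P r).2)

theorem stale_lt {k : ℕ} (op : X p K → X p K → X p K) (hop : OpOk op) (r0 : ℕ)
    (hr0 : (4 : ℤ) ^ r0 < p) (P : Fin k → J × J) (c : Fin k → J) (e : J)
    (hc : ∀ r, c r = (P r).1 ∨ c r = (P r).2)
    (hpriv : ∀ r s, s ≠ r → c r ≠ (P s).1 ∧ c r ≠ (P s).2)
    (he : ∀ r, (P r).1 ≠ e ∧ (P r).2 ≠ e)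
    (x : J → X p K) (hx : Function.Injective x) (hxe : x e = 0)
    (hgood : Good p r0 (fun j => (x j).1.1)) :
    (Stale op P x).card < 2 * r0 := by
  have hp : p.Prime := Fact.out
  set α : J → ZMod p := fun j => (x j).1.1 with hα
  have hcinj : Function.Injective c := by
    intro r s hrs
    by_contra hne
    rcases hc s with h | h
    · exact (hpriv r s (Ne.symm hne)).1 (hrs.trans h)
    · exact (hpriv r s (Ne.symm hne)).2 (hrs.trans h)
  -- the data of a stale position
  have hdata : ∀ r ∈ Stale op P x, ∃ (tf : J ⊕ J × J) (nx : Option (Fin k)),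
      lin α (.inr (P r)) = lin α tf ∧ form tf (c r) = 0 ∧ nx ≠ some r ∧
      ∀ r', r' ≠ r → nx ≠ some r' → form tf (c r') = 0 := by
    intro r hr
    simp only [Stale, Finset.mem_filter, Finset.mem_univ, true_and] at hr
    rcases hr with ⟨j, hj⟩ | ⟨s, hs, hs2⟩
    · have hjc : j ≠ c r := by
        intro hjc
        rcases hc r with h | h
        · rw [hjc, h] at hj
          have := hop.l _ _ hj
          rw [← hxe] at this
          exact (he r).2 (hx this)
        · rw [hjc, h] at hj
          have := hop.r _ _ hj
          rw [← hxe] at this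
          exact (he r).1 (hx this)
      have hlin : lin α (.inr (P r)) = lin α (.inl j : J ⊕ J × J) := by
        have := congrArg (fun z : X p K => z.1.1) hj
        simp only [hop.a] at this
        exact this
      by_cases hex : ∃ r', c r' = j
      · obtain ⟨r', hr'⟩ := hex
        refine ⟨.inl j, some r', hlin, ?_, ?_, ?_⟩
        · simp only [form]; rw [Pi.single_apply, if_neg (Ne.symm hjc)]
        · intro h
          have := Option.some.inj h
          rw [this] at hr'
          exact hjc hr'.symm
        · intro r'' _ h2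
          simp only [form]
          rw [Pi.single_apply, if_neg]
          intro h3
          apply h2
          rw [hcinj (hr'.trans h3.symm)]
      · refine ⟨.inl j, none, hlin, ?_, by simp, ?_⟩
        · simp only [form]; rw [Pi.single_apply, if_neg (Ne.symm hjc)]
        · intro r'' _ _
          simp only [form]
          rw [Pi.single_apply, if_neg]
          intro h3
          exact hex ⟨r'', h3⟩
    · have hz : ∀ r', r' ≠ s → form (.inr (P s) : J ⊕ J × J) (c r') = 0 := by
        intro r' hr'
        have h1 := hpriv r' s (Ne.symm hr')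
        simp only [form, Pi.add_apply]
        rw [Pi.single_apply, Pi.single_apply, if_neg h1.1, if_neg h1.2]
        rfl
      refine ⟨.inr (P s), some s, ?_, hz r (Ne.symm hs), ?_, ?_⟩
      · have := congrArg (fun z : X p K => z.1.1) hs2
        simp only [hop.a] at this
        exact this.symm
      · intro h; exact hs (Option.some.inj h)
      · intro r' _ h2
        apply hz
        intro h; exact h2 (by rw [h])
  haveI : Nonempty (J ⊕ J × J) := ⟨.inl e⟩
  choose! tf nx hlin hdiag hself hoff using hdata
  by_contra hcon
  rw [not_lt] at hcon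
  set B := Stale op P x with hB
  let Bp := B.filter fun r => ∀ s, nx r = some s → r < s
  let Bm := B.filter fun r => ¬ ∀ s, nx r = some s → r < s
  have hcard : Bp.card + Bm.card = B.card :=
    Finset.card_filter_add_card_filter_not _
  -- entries of the matrix
  have hent : ∀ r ∈ B, ∀ r', r' ≠ r → nx r ≠ some r' →
      form (.inr (P r) : J ⊕ J × J) (c r') - form (tf r) (c r') = 0 := by
    intro r hr r' hne hnx
    have h1 := hpriv r' r (Ne.symm hne)
    have h2 : form (.inr (P r) : J ⊕ J × J) (c r') = 0 := by
      simp only [form, Pi.add_apply]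
      rw [Pi.single_apply, Pi.single_apply, if_neg h1.1, if_neg h1.2]
      rfl
    rw [h2, hoff r hr r' hne hnx, sub_zero]
  have hdia : ∀ r ∈ B, form (.inr (P r) : J ⊕ J × J) (c r) - form (tf r) (c r) = 1 ∨
      form (.inr (P r) : J ⊕ J × J) (c r) - form (tf r) (c r) = 2 := by
    intro r hr
    rw [hdiag r hr, sub_zero]
    simp only [form, Pi.add_apply, Pi.single_apply]
    rcases hc r with h | h
    · rw [if_pos h]
      by_cases h2 : c r = (P r).2
      · right; rw [if_pos h2]; norm_num
      · left; rw [if_neg h2]; norm_num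
    · rw [if_pos h]
      by_cases h2 : c r = (P r).1
      · right; rw [if_pos h2]; norm_num
      · left; rw [if_neg h2]; norm_num
  have hfin : ∀ (emb : Fin r0 → Fin k), (∀ i, emb i ∈ B) → ∀ d : ℤ,
      (Matrix.of (fun i l => form (.inr (P (emb i)) : J ⊕ J × J) (c (emb l)) -
        form (tf (emb i)) (c (emb l)))).det = d → d = ∏ i, (form (.inr (P (emb i)) : J ⊕ J × J)
          (c (emb i)) - form (tf (emb i)) (c (emb i))) → False := by
    intro emb hemb d hd hd2
    have h1 := hgood (fun i => (.inr (P (emb i)), tf (emb i))) (fun l => c (emb l)) (by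
      intro i
      have h2 : ∀ y : J → ZMod p, ∀ f f' : J ⊕ J × J,
          ∑ i, ((form f i - form f' i : ℤ) : ZMod p) * y i = lin y f - lin y f' := by
        intro y f f'
        rw [← sum_form_mul y f, ← sum_form_mul y f', ← Finset.sum_sub_distrib]
        refine Finset.sum_congr rfl fun i _ => ?_
        push_cast; ring
      rw [h2, hlin _ (hemb i), sub_self])
    simp only at h1
    rw [hd, hd2] at h1
    have hpp : Prime (p : ℤ) := Nat.prime_iff_prime_int.mp hp
    obtain ⟨i, _, hi⟩ := hpp.exists_mem_finset_dvd h1
    have hr0pos : 0 < r0 := by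
      rcases Nat.eq_zero_or_pos r0 with h | h
      · subst h; exact i.elim0
      · exact h
    have hp4 : (4 : ℤ) < p := by
      have : (4 : ℤ) ^ 1 ≤ 4 ^ r0 := pow_le_pow_right₀ (by norm_num) hr0pos
      linarith
    rcases hdia _ (hemb i) with h | h
    · rw [h] at hi
      have := Int.le_of_dvd (by norm_num) hi
      linarith
    · rw [h] at hi
      have := Int.le_of_dvd (by norm_num) hi
      linarith
  have hor : r0 ≤ Bp.card ∨ r0 ≤ Bm.card := by omega
  rcases hor with h | h
  · obtain ⟨T, hT, hTc⟩ := Finset.exists_subset_card_eq h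
    let emb := T.orderEmbOfFin hTc
    have hemb : ∀ i, emb i ∈ Bp := fun i => hT (T.orderEmbOfFin_mem hTc i)
    have hembB : ∀ i, emb i ∈ B := fun i => (Finset.mem_filter.mp (hemb i)).1
    refine hfin (fun i => emb i) hembB _ rfl ?_
    rw [Matrix.det_of_isUpperTriangular]
    · rfl
    · intro i l hil
      have hlt : emb l < emb i := emb.lt_iff_lt.mpr hil
      simp only [Matrix.of_apply]
      apply hent _ (hembB i) _ hlt.ne
      intro hnx
      have := (Finset.mem_filter.mp (hemb i)).2 _ hnx
      exact absurd this (not_lt.mpr hlt.le)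
  · obtain ⟨T, hT, hTc⟩ := Finset.exists_subset_card_eq h
    let emb := T.orderEmbOfFin hTc
    have hemb : ∀ i, emb i ∈ Bm := fun i => hT (T.orderEmbOfFin_mem hTc i)
    have hembB : ∀ i, emb i ∈ B := fun i => (Finset.mem_filter.mp (hemb i)).1
    refine hfin (fun i => emb i) hembB _ rfl ?_
    rw [Matrix.det_of_isLowerTriangular]
    · rfl
    · intro i l hil
      have hlt : emb i < emb l := emb.lt_iff_lt.mpr (OrderDual.toDual_lt_toDual.mp hil)
      simp only [Matrix.of_apply]
      apply hent _ (hembB i) _ hlt.ne'
      intro hnx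
      have h1 := (Finset.mem_filter.mp (hemb i)).2
      push Not at h1
      obtain ⟨s, hs, hs2⟩ := h1
      rw [hnx] at hs
      have := Option.some.inj hs
      rw [← this] at hs2
      exact absurd hlt (not_lt.mpr hs2)

end

end Pool.Agent.H82.GpMaj
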