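import Pool.Agent.H.MP_c695c6_lc.helper82.Wide

/-!
Counting the labelings for which a wide AND gate is true.
-/

namespace Pool.Agent.H82.GpMaj

open Matrix Finset
open scoped Classical

variable {p : ℕ} [Fact p.Prime] {K : Type} [AddCommGroup K] [Fintype K]
variable {ι J : Type} [Fintype ι] [Fintype J] [DecidableEq J]

theorem fiber_wide {k : ℕ} (op : X p K → X p K → X p K) (ℓ : J → ι)
    (hℓ : Function.Injective ℓ) (P : Fin k → J × J) (S : Fin k → Finset ι) (x : J → X p K)
    (Φ : Finset (Fin k)) (hΦ : ∀ r ∈ Φ, r ∉ Stale op P x) :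
    (Finset.univ.filter (fun π : ι ≃ X p K => (∀ j, π (ℓ j) = x j) ∧
      ∀ r, tab op π (ℓ (P r).1) (ℓ (P r).2) ∈ S r)).card ≤
      (∏ r ∈ Φ, (S r).card) * (Fintype.card ι - (Fintype.card J + Φ.card)).factorial := by
  let Φt := {r // r ∈ Φ}
  let g : Φt → X p K := fun r => op (x (P r).1) (x (P r).2)
  by_cases hxinj : Function.Injective x
  swap
  · have : (Finset.univ.filter (fun π : ι ≃ X p K => (∀ j, π (ℓ j) = x j) ∧
      ∀ r, tab op π (ℓ (P r).1) (ℓ (P r).2) ∈ S r)) = ∅ := by
      rw [Finset.filter_eq_empty_iff]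
      rintro π _ ⟨h1, _⟩
      apply hxinj
      intro j j' hjj
      rw [← h1, ← h1] at hjj
      exact hℓ (π.injective hjj)
    rw [this]
    simp
  have hv : Function.Injective (Sum.elim x g) := by
    rintro (j | r) (j' | r') h
    · exact congrArg _ (hxinj h)
    · exfalso
      simp only [Sum.elim_inl, Sum.elim_inr, g] at h
      apply hΦ r'.1 r'.2
      simp only [Stale, Finset.mem_filter, Finset.mem_univ, true_and]
      exact Or.inl ⟨j, h.symm⟩
    · exfalso
      simp only [Sum.elim_inl, Sum.elim_inr, g] at h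
      apply hΦ r.1 r.2
      simp only [Stale, Finset.mem_filter, Finset.mem_univ, true_and]
      exact Or.inl ⟨j', h⟩
    · simp only [Sum.elim_inr, g] at h
      by_contra hne
      apply hΦ r.1 r.2
      simp only [Stale, Finset.mem_filter, Finset.mem_univ, true_and]
      refine Or.inr ⟨r'.1, ?_, h.symm⟩
      intro h2
      apply hne
      congr 1
      exact (Subtype.ext h2).symm
  have hsub : (Finset.univ.filter (fun π : ι ≃ X p K => (∀ j, π (ℓ j) = x j) ∧
      ∀ r, tab op π (ℓ (P r).1) (ℓ (P r).2) ∈ S r)) ⊆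
      (Fintype.piFinset (fun r : Φt => S r.1)).biUnion (fun lam =>
        Finset.univ.filter (fun π : ι ≃ X p K =>
          ∀ z : J ⊕ Φt, π (Sum.elim ℓ lam z) = Sum.elim x g z)) := by
    intro π hπ
    simp only [Finset.mem_filter, Finset.mem_univ, true_and] at hπ
    rw [Finset.mem_biUnion]
    refine ⟨fun r => π.symm (g r), ?_, ?_⟩
    · rw [Fintype.mem_piFinset]
      intro r
      have := hπ.2 r.1
      simp only [tab, hπ.1] at this
      exact this
    · simp only [Finset.mem_filter, Finset.mem_univ, true_and]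
      rintro (j | r)
      · exact hπ.1 j
      · simp
  refine (Finset.card_le_card hsub).trans (Finset.card_biUnion_le.trans ?_)
  have hone : ∀ lam ∈ Fintype.piFinset (fun r : Φt => S r.1),
      (Finset.univ.filter (fun π : ι ≃ X p K =>
          ∀ z : J ⊕ Φt, π (Sum.elim ℓ lam z) = Sum.elim x g z)).card ≤
        (Fintype.card ι - (Fintype.card J + Φ.card)).factorial := by
    intro lam _
    by_cases hl : Function.Injective (Sum.elim ℓ lam)
    · have h1 := card_equiv_prescribed (α := ι) (β := X p K) (Sum.elim ℓ lam) hl (Sum.elim x g)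
      have h2 : Fintype.card (J ⊕ Φt) = Fintype.card J + Φ.card := by
        rw [Fintype.card_sum]; simp [Φt]
      rw [h2] at h1
      rw [← Fintype.card_subtype]
      convert h1
    · have : (Finset.univ.filter (fun π : ι ≃ X p K =>
          ∀ z : J ⊕ Φt, π (Sum.elim ℓ lam z) = Sum.elim x g z)) = ∅ := by
        rw [Finset.filter_eq_empty_iff]
        intro π _ h
        apply hl
        intro z z' hz
        apply hv
        rw [← h, ← h, hz]
      rw [this]; simp
  refine (Finset.sum_le_sum hone).trans ?_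
  rw [Finset.sum_const, smul_eq_mul, Fintype.card_piFinset]
  apply le_of_eq
  congr 1
  exact Finset.prod_coe_sort Φ (fun r => (S r).card)

theorem wide_count {k : ℕ} (op : X p K → X p K → X p K) (hop : OpOk op) (r0 : ℕ)
    (hr0 : (4 : ℤ) ^ r0 < p) (ℓ : J → ι) (hℓ : Function.Injective ℓ) (P : Fin k → J × J)
    (c : Fin k → J) (e : J) (hc : ∀ r, c r = (P r).1 ∨ c r = (P r).2)
    (hpriv : ∀ r s, s ≠ r → c r ≠ (P s).1 ∧ c r ≠ (P s).2)
    (he : ∀ r, (P r).1 ≠ e ∧ (P r).2 ≠ e) (S : Fin k → Finset ι)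
    (hS : ∀ r, 5 * (S r).card ≤ 4 * Fintype.card ι)
    (hcard : Fintype.card ι = Fintype.card (X p K))
    (hsize : 10 * (Fintype.card J + k) ≤ Fintype.card ι) :
    (Finset.univ.filter (fun π : ι ≃ X p K => π (ℓ e) = 0 ∧ Good p r0 (apart ℓ π) ∧
      ∀ r, tab op π (ℓ (P r).1) (ℓ (P r).2) ∈ S r)).card * 9 ^ (k - 2 * r0) ≤
      8 ^ (k - 2 * r0) * (Fintype.card ι).factorial := by
  set n := Fintype.card ι with hn
  set f0 := k - 2 * r0 with hf0
  set A := Finset.univ.filter (fun π : ι ≃ X p K => π (ℓ e) = 0 ∧ Good p r0 (apart ℓ π) ∧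
      ∀ r, tab op π (ℓ (P r).1) (ℓ (P r).2) ∈ S r) with hA
  have hJn : Fintype.card J + f0 ≤ n := by omega
  -- fibers
  have hfib : ∀ x : J → X p K,
      (A.filter (fun π => (fun j => π (ℓ j)) = x)).card * 5 ^ f0 ≤
        if Function.Injective x then
          (4 * n) ^ f0 * (n - (Fintype.card J + f0)).factorial else 0 := by
    intro x
    by_cases hne : (A.filter (fun π => (fun j => π (ℓ j)) = x)).Nonempty
    swap
    · rw [Finset.not_nonempty_iff_eq_empty] at hne
      rw [hne]; simp
    obtain ⟨π0, hπ0⟩ := hne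
    rw [Finset.mem_filter, hA, Finset.mem_filter] at hπ0
    obtain ⟨⟨_, h0, hgood, _⟩, hx⟩ := hπ0
    have hxinj : Function.Injective x := by
      rw [← hx]
      intro j j' h
      exact hℓ (π0.injective h)
    have hxe : x e = 0 := by rw [← hx]; exact h0
    have hg : Good p r0 (fun j => (x j).1.1) := by
      rw [← hx]; exact hgood
    have hst := stale_lt op hop r0 hr0 P c e hc hpriv he x hxinj hxe hg
    have hcompl : f0 ≤ (Stale op P x)ᶜ.card := by
      rw [Finset.card_compl, Fintype.card_fin]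
      omega
    obtain ⟨Φ, hΦ, hΦc⟩ := Finset.exists_subset_card_eq hcompl
    have h1 := fiber_wide op ℓ hℓ P S x Φ (fun r hr => Finset.mem_compl.mp (hΦ hr))
    rw [if_pos hxinj]
    have h2 : (A.filter (fun π => (fun j => π (ℓ j)) = x)).card ≤
        (Finset.univ.filter (fun π : ι ≃ X p K => (∀ j, π (ℓ j) = x j) ∧
      ∀ r, tab op π (ℓ (P r).1) (ℓ (P r).2) ∈ S r)).card := by
      apply Finset.card_le_card
      intro π hπ
      rw [Finset.mem_filter, hA, Finset.mem_filter] at hπ
      simp only [Finset.mem_filter, Finset.mem_univ, true_and]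
      exact ⟨fun j => congrFun hπ.2 j, hπ.1.2.2.2⟩
    have h3 : (∏ r ∈ Φ, (S r).card) * 5 ^ f0 ≤ (4 * n) ^ f0 := by
      rw [← hΦc, ← Finset.prod_const, ← Finset.prod_mul_distrib, ← Finset.prod_const]
      apply Finset.prod_le_prod'
      intro r _
      have := hS r
      omega
    calc (A.filter (fun π => (fun j => π (ℓ j)) = x)).card * 5 ^ f0
        ≤ ((∏ r ∈ Φ, (S r).card) * (n - (Fintype.card J + Φ.card)).factorial) * 5 ^ f0 :=
          Nat.mul_le_mul_right _ (h2.trans h1)
      _ = ((∏ r ∈ Φ, (S r).card) * 5 ^ f0) * (n - (Fintype.card J + f0)).factorial := by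
          rw [hΦc]; ring
      _ ≤ (4 * n) ^ f0 * (n - (Fintype.card J + f0)).factorial :=
          Nat.mul_le_mul_right _ h3
  have hsum : A.card * 5 ^ f0 ≤
      n.descFactorial (Fintype.card J) * ((4 * n) ^ f0 * (n - (Fintype.card J + f0)).factorial) := by
    rw [Finset.card_eq_sum_card_fiberwise (s := A) (f := fun (π : ι ≃ X p K) (j : J) => π (ℓ j))
      (t := Finset.univ) (fun _ _ => Finset.mem_univ _), Finset.sum_mul]
    refine (Finset.sum_le_sum fun x _ => hfib x).trans ?_
    rw [← Finset.sum_filter, Finset.sum_const, smul_eq_mul]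
    apply Nat.mul_le_mul_right
    rw [← Fintype.card_subtype, Fintype.card_congr (Equiv.subtypeInjectiveEquivEmbedding J (X p K)),
      Fintype.card_embedding_eq, ← hcard]
  -- arithmetic
  set m := n - Fintype.card J with hm
  have hmf : f0 ≤ m := by omega
  have e1 : (n - (Fintype.card J + f0)).factorial * m.descFactorial f0 = m.factorial := by
    have : n - (Fintype.card J + f0) = m - f0 := by omega
    rw [this]; exact Nat.factorial_mul_descFactorial hmf
  have e2 : n.descFactorial (Fintype.card J) * m.factorial = n.factorial := by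
    rw [mul_comm]; exact Nat.factorial_mul_descFactorial (by omega)
  have e3 : (9 * n) ^ f0 ≤ 10 ^ f0 * m.descFactorial f0 := by
    calc (9 * n) ^ f0 ≤ (10 * (m + 1 - f0)) ^ f0 := Nat.pow_le_pow_left (by omega) _
      _ = 10 ^ f0 * (m + 1 - f0) ^ f0 := mul_pow _ _ _
      _ ≤ _ := Nat.mul_le_mul_left _ (Nat.pow_sub_le_descFactorial m f0)
  have hfinal : (A.card * 9 ^ f0) * (5 * n) ^ f0 ≤ (8 ^ f0 * n.factorial) * (5 * n) ^ f0 := by
    calc (A.card * 9 ^ f0) * (5 * n) ^ f0 = (A.card * 5 ^ f0) * (9 * n) ^ f0 := by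
          rw [mul_pow, mul_pow]; ring
      _ ≤ (n.descFactorial (Fintype.card J) *
          ((4 * n) ^ f0 * (n - (Fintype.card J + f0)).factorial)) *
          (10 ^ f0 * m.descFactorial f0) := Nat.mul_le_mul hsum e3
      _ = (n.descFactorial (Fintype.card J) *
          ((n - (Fintype.card J + f0)).factorial * m.descFactorial f0)) * ((4 * n) ^ f0 * 10 ^ f0) := by
          ring
      _ = n.factorial * ((4 * n) ^ f0 * 10 ^ f0) := by rw [e1, e2]
      _ = (8 ^ f0 * n.factorial) * (5 * n) ^ f0 := by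
          have : (4 * n) ^ f0 * 10 ^ f0 = 8 ^ f0 * (5 * n) ^ f0 := by
            rw [← mul_pow, ← mul_pow]; congr 1; ring
          rw [this]; ring
  have hnpos : 0 < n := by
    have : 0 < Fintype.card J := Fintype.card_pos_iff.mpr ⟨e⟩
    omega
  exact Nat.le_of_mul_le_mul_right hfinal (by positivity)

end Pool.Agent.H82.GpMaj
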